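import Pool.Agent.Lib.MP_c8786f_co.Gen.Exc

/-!
The theorem for all bridgeless multigraphs: loops, isolated vertices and vertices of degree two.
-/

namespace Pool.Agent.Lib.MP_c8786f_co.Gen

open Finset W5
open scoped Classical

set_option linter.unusedSectionVars false

variable {V E : Type} [Fintype V] [DecidableEq V] [Fintype E]

/-- `Y` contains a cycle that is not a loop -/
def Cyc0 (s t : E → V) (Y : Finset V) : Prop :=
  ∃ C : Finset E, C.Nonempty ∧ Ev s t C Y ∧ ∀ e ∈ C, s e ≠ t e

/-- the hypothesis on cyclic cuts -/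
def Hyp (s t : E → V) (k K g : ℕ) : Prop :=
  ∀ Y, Cyc0 s t Y → Cyc0 s t Yᶜ → k ≤ cut s t Y ∧
    (K ≤ cut s t Y ∨ g ≤ (Y.filter fun v => 3 ≤ cut s t {v}).card)

variable {s t : E → V}

lemma Cyc0.mono {X Y : Finset V} (h : Cyc0 s t X) (hXY : X ⊆ Y) : Cyc0 s t Y := by
  obtain ⟨C, h1, ⟨h2, h3⟩, h4⟩ := h
  exact ⟨C, h1, ⟨fun e he => ⟨hXY (h2 e he).1, hXY (h2 e he).2⟩, h3⟩, h4⟩

lemma cut_pos_of {e : E} (he : s e ≠ t e) : cut s t {s e} ≠ 0 ∧ cut s t {t e} ≠ 0 :=
  ⟨card_ne_zero.2 ⟨e, by simp [he.symm]⟩, card_ne_zero.2 ⟨e, by simp [he]⟩⟩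

lemma dg_nl (v : V) : dg s t (univ.filter fun e => s e ≠ t e) v = cut s t {v} := by
  have h := degsum s t (univ.filter fun e => s e ≠ t e) {v}
  rw [sum_singleton, filter_false_of_mem (s := univ.filter fun e => s e ≠ t e)
    (fun e he k => (mem_filter.1 he).2
    ((mem_singleton.1 k.1).trans (mem_singleton.1 k.2).symm)), card_empty, filter_filter] at h
  rw [h, mul_zero, zero_add, cut]
  exact congrArg card (filter_congr fun e _ => ⟨And.right, fun k => ⟨fun j => k (by rw [j]), k⟩⟩)

theorem base (k p q g : ℕ) (h : 4 * k * q + 4 * p < p * k)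
    (hg : g = 2 ^ (2 ^ 64 * (p * k) ^ 5)) (s t : E → V)
    (hd : ∀ v, cut s t {v} ≠ 0 → 3 ≤ cut s t {v}) (H : Hyp s t k (32 ^ g) g) : Flow s t p q := by
  let s0 : {e // s e ≠ t e} → {v // cut s t {v} ≠ 0} := fun e => ⟨s e.1, (cut_pos_of e.2).1⟩
  let t0 : {e // s e ≠ t e} → {v // cut s t {v} ≠ 0} := fun e => ⟨t e.1, (cut_pos_of e.2).2⟩
  have hdg : ∀ C v, dg s0 t0 C v = dg s t (C.map (Function.Embedding.subtype _)) v.1 := fun C v => by
    rw [dg_map]
    simp only [dg, s0, t0, Subtype.ext_iff]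
  have hcyc : ∀ Y, Cyc s0 t0 Y → Cyc0 s t (Y.map (Function.Embedding.subtype _)) := by
    rintro Y ⟨C, k1, k2, k3⟩
    refine ⟨C.map (Function.Embedding.subtype _), k1.map, ⟨fun e he => ?_, fun v => ?_⟩,
      fun e he => ?_⟩
    · obtain ⟨e, j, rfl⟩ := mem_map.1 he
      exact ⟨mem_map.2 ⟨_, (k2 e j).1, rfl⟩, mem_map.2 ⟨_, (k2 e j).2, rfl⟩⟩
    · by_cases j : cut s t {v} = 0
      · rw [not_not.1 (mt dg_pos.1 fun ⟨e, he, j'⟩ => by
          obtain ⟨e, -, rfl⟩ := mem_map.1 he
          rcases j' with j' | j'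
          · exact (cut_pos_of e.2).1 (by rw [← j]; exact congrArg (fun x => cut s t {x}) j')
          · exact (cut_pos_of e.2).2 (by rw [← j]; exact congrArg (fun x => cut s t {x}) j'))]
        exact Even.zero
      · exact hdg C ⟨v, j⟩ ▸ k3 _
    · obtain ⟨e, -, rfl⟩ := mem_map.1 he
      exact e.2
  have hcut : ∀ Y, cut s0 t0 Y = cut s t (Y.map (Function.Embedding.subtype _)) := fun Y => by
    rw [cut_sum, cut_sum, ← fx_sub (fun e => s e ≠ t e) _ fun e he => by rw [not_not.1 he]; simp]
    refine sum_congr rfl fun e _ => if_congr (iff_congr ?_ ?_) rfl rfl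
    · exact (mem_map' (Function.Embedding.subtype _)).symm
    · exact (mem_map' (Function.Embedding.subtype _)).symm
  obtain ⟨f, f1, f2⟩ := mindeg k p q g h hg s0 t0 (fun e j => e.2 (congrArg Subtype.val j))
    (fun v => by
      rw [hdg, show (univ : Finset {e // s e ≠ t e}).map (Function.Embedding.subtype _) =
        univ.filter fun e => s e ≠ t e by ext e; simp, dg_nl]
      exact hd _ v.2) fun Y y1 y2 => by
      have k := H _ (hcyc Y y1) ((hcyc _ y2).mono fun v hv => by
        obtain ⟨v, j, rfl⟩ := mem_map.1 hv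
        exact mem_compl.2 fun j' => mem_compl.1 j ((mem_map' _).1 j'))
      rw [hcut]
      exact ⟨k.1, k.2.imp_right fun j => j.trans ((card_filter_le _ _).trans (card_map _).le)⟩
  have hq : (q : ℤ) ≤ p - q := by
    have hk : 4 < k := by
      by_contra h'
      have : p * k ≤ p * 4 := Nat.mul_le_mul_left _ (by omega)
      omega
    have : 4 * q ≤ p := by nlinarith
    omega
  refine ⟨fun e => if j : s e ≠ t e then f ⟨e, j⟩ else q, fun e => ?_, fun v => ?_⟩
  · by_cases j : s e ≠ t e
    · simpa only [dif_pos j] using f1 ⟨e, j⟩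
    · simp only [dif_neg j, Nat.abs_cast]
      exact ⟨le_rfl, hq⟩
  · rw [← sub_eq_zero, sum_filter, sum_filter, ← sum_sub_distrib,
      ← fx_sub (fun e => s e ≠ t e) _ fun e he => by
        rw [dif_neg he, not_not.1 he, sub_self]]
    simp only [sum_sub_distrib]
    by_cases j : cut s t {v} = 0
    · rw [sum_eq_zero fun e _ => if_neg fun k => (cut_pos_of e.2).1 (by rw [k]; exact j),
        sum_eq_zero fun e _ => if_neg fun k => (cut_pos_of e.2).2 (by rw [k]; exact j), sub_self]
    · have k := f2 ⟨v, j⟩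
      rw [sum_filter, sum_filter] at k
      simp only [s0, t0, Subtype.mk.injEq] at k
      rw [sub_eq_zero]
      refine Eq.trans (sum_congr rfl fun e _ => ?_) (k.trans (sum_congr rfl fun e _ => ?_)) <;>
        rw [dif_pos e.2]

lemma even_last {C : Finset E} {y : V} (h : ∀ v, v ≠ y → Even (dg s t C v)) (v : V) :
    Even (dg s t C v) := by
  by_cases hv : v = y
  · have h1 := degsum s t C univ
    rw [← add_sum_erase _ _ (mem_univ y)] at h1
    simp only [mem_univ, not_true, filter_false, card_empty] at h1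
    obtain ⟨r, hr⟩ := even_sum (s := univ.erase y) _ fun z hz => h z (mem_erase.1 hz).1
    rw [hv, Nat.even_iff]
    omega
  · exact h v hv

theorem all (k p q g : ℕ) (h : 4 * k * q + 4 * p < p * k)
    (hg : g = 2 ^ (2 ^ 64 * (p * k) ^ 5)) (n : ℕ) : ∀ s t : E → V,
    (univ.filter fun e => s e ≠ t e).card ≤ n → (∀ Y, cut s t Y ≠ 1) →
    Hyp s t k (32 ^ g) g → Flow s t p q := by
  have hk : 4 < k := by
    by_contra h'
    have : p * k ≤ p * 4 := Nat.mul_le_mul_left _ (by omega)
    omega
  induction n with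
  | zero =>
    intro s t hn hb H
    refine base k p q g h hg s t (fun v hv => absurd ?_ hv) H
    rw [← dg_nl, card_eq_zero.1 (Nat.le_zero.1 hn)]
    rfl
  | succ n ih =>
  intro s t hn hb H
  by_cases h2 : ∃ x, cut s t {x} = 2
  swap
  · refine base k p q g h hg s t (fun v hv => ?_) H
    have := hb {v}
    have := mt (fun j => ⟨v, j⟩) h2
    omega
  obtain ⟨x, hx⟩ := h2
  obtain ⟨e1, e2, h12, hE⟩ := card_eq_two.1 hx
  have hE' : ∀ e, ¬(s e = x ↔ t e = x) ↔ e = e1 ∨ e = e2 := fun e => by
    have := Finset.ext_iff.1 hE e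
    simpa using this
  have a1 := (hE' e1).2 (Or.inl rfl)
  have a2 := (hE' e2).2 (Or.inr rfl)
  obtain ⟨y, hy, hxy⟩ : ∃ y, y ≠ x ∧ (s e1 = x ∧ t e1 = y ∨ s e1 = y ∧ t e1 = x) := by
    by_cases j : s e1 = x
    · exact ⟨t e1, by tauto, Or.inl ⟨j, rfl⟩⟩
    · exact ⟨s e1, j, Or.inr ⟨rfl, by tauto⟩⟩
  obtain ⟨π, hπ⟩ : ∃ π : V → V, ∀ v, π v = if v = x then y else v := ⟨_, fun _ => rfl⟩
  have πx : π x = y := by simp [hπ]
  have πy : π y = y := by simp [hπ]
  have πv : ∀ v, v ≠ x → v ≠ y → ∀ u, π u = v ↔ u = v := fun v j1 j2 u => by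
    rw [hπ]
    split_ifs with j
    · simp [j, j1.symm, j2.symm]
    · rfl
  have π1 : π (s e1) = y ∧ π (t e1) = y := by
    rcases hxy with j | j <;> rw [j.1, j.2] <;> simp [πx, πy]
  have hcut : ∀ Y, cut (fun e => π (s e)) (fun e => π (t e)) Y =
      cut s t (univ.filter fun v => π v ∈ Y) := fun Y => by simp [cut]
  have hcyc : ∀ Y, Cyc0 (fun e => π (s e)) (fun e => π (t e)) Y →
      Cyc0 s t (univ.filter fun v => π v ∈ Y) := by
    rintro Y ⟨C, k1, ⟨k2, k3⟩, k4⟩
    have b1 : ∀ v, v ≠ x → v ≠ y → Even (dg s t C v) := fun v j1 j2 => by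
      have := k3 v
      simpa only [dg, πv v j1 j2] using this
    have b2 : ∀ e ∈ C, s e ≠ t e := fun e j j' => k4 e j (by simp only [j'])
    by_cases j : Even (dg s t C x)
    · exact ⟨C, k1, ⟨fun e he => by simpa using k2 e he, even_last (y := y) fun v hv => by
        by_cases j' : v = x
        · rwa [j']
        · exact b1 v j' hv⟩, b2⟩
    · have b3 : e1 ∉ C := fun j' => k4 e1 j' (π1.1.trans π1.2.symm)
      have b4 : y ∈ Y := by
        obtain ⟨e, j1, j2⟩ := dg_pos.1 (show dg s t C x ≠ 0 from fun j' => j (j' ▸ Even.zero))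
        rcases j2 with j2 | j2
        · simpa [j2, πx] using (k2 e j1).1
        · simpa [j2, πx] using (k2 e j1).2
      have b5 : ∀ v, dg s t (insert e1 C) v = dg s t C v +
          ((if s e1 = v then 1 else 0) + if t e1 = v then 1 else 0) := fun v => by
        unfold dg
        rw [filter_insert, filter_insert]
        split_ifs <;> simp [b3] <;> ring
      refine ⟨insert e1 C, insert_nonempty _ _, ⟨fun e he => ?_, even_last (y := y) fun v hv => ?_⟩,
        fun e he => ?_⟩
      · rcases mem_insert.1 he with rfl | he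
        · simp [π1.1, π1.2, b4]
        · simpa using k2 e he
      · rw [b5]
        by_cases j' : v = x
        · rw [j', Nat.even_add]
          rcases hxy with j1 | j1 <;> simp [j1.1, j1.2, hy, j]
        · have := b1 v j' hv
          rcases hxy with j1 | j1 <;> simpa [j1.1, j1.2, Ne.symm j', Ne.symm hv] using this
      · rcases mem_insert.1 he with rfl | he
        · exact fun j' => a1 (by rw [j'])
        · exact b2 e he
  obtain ⟨f, f1, f2⟩ := ih (fun e => π (s e)) (fun e => π (t e)) (by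
    refine Nat.le_of_lt_succ (lt_of_lt_of_le (card_lt_card ⟨fun e he => ?_, fun j => ?_⟩) hn)
    · exact mem_filter.2 ⟨mem_univ _, fun j => (mem_filter.1 he).2 (by simp only [j])⟩
    · exact (mem_filter.1 (j (mem_filter.2 ⟨mem_univ e1, fun j' => a1 (by rw [j'])⟩))).2
        (π1.1.trans π1.2.symm)) (fun Y => hcut Y ▸ hb _) fun Y y1 y2 => by
    have k := H _ (hcyc Y y1) ((hcyc _ y2).mono fun v hv => by simpa using hv)
    rw [hcut]
    refine ⟨k.1, k.2.imp_right fun j => j.trans (card_le_card fun v hv => ?_)⟩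
    obtain ⟨j1, j2⟩ := mem_filter.1 hv
    have j3 : v ≠ x := fun j' => by rw [j', hx] at j2; omega
    refine mem_filter.2 ⟨by simpa [hπ, j3] using j1, ?_⟩
    rw [hcut]
    by_cases j4 : v = y
    swap
    · rwa [show (univ.filter fun u => π u ∈ ({v} : Finset V)) = {v} by
        ext u; simp [πv v j3 j4]]
    rw [j4] at j2
    rw [j4, show (univ.filter fun u => π u ∈ ({y} : Finset V)) = {x, y} by
      ext u; by_cases j' : u = x <;> simp [hπ, j']]
    by_cases c1 : Cyc0 s t {x, y}
    · have c2 : ∀ W, Cyc0 (fun e => π (s e)) (fun e => π (t e)) W → y ∉ W →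
          Cyc0 s t ({x, y} : Finset V)ᶜ := fun W w1 w2 => (hcyc W w1).mono fun u hu => by
        simp only [mem_filter, mem_univ, true_and, mem_compl, mem_insert, mem_singleton] at hu ⊢
        rintro (rfl | rfl)
        · exact w2 (πx ▸ hu)
        · exact w2 (πy ▸ hu)
      have c3 := (H _ c1 (by
        by_cases j' : y ∈ Y
        · exact c2 _ y2 (by simpa using j')
        · exact c2 _ y1 j')).1
      omega
    · have c2 := degsum s t (univ.filter fun e => s e ≠ t e) {x, y}
      rw [sum_pair hy.symm, dg_nl, dg_nl] at c2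
      have c3 : ((univ.filter fun e => s e ≠ t e).filter fun e =>
          ¬(s e ∈ ({x, y} : Finset V) ↔ t e ∈ ({x, y} : Finset V))).card ≤ cut s t {x, y} :=
        card_le_card (filter_subset_filter _ (subset_univ _))
      have c4 := mt (sub_forest (s := s) (t := t) ((univ.filter fun e => s e ≠ t e).filter fun e =>
          s e ∈ ({x, y} : Finset V) ∧ t e ∈ ({x, y} : Finset V)) (insert_nonempty x {y})
          fun e he => (mem_filter.1 he).2) fun ⟨C, d1, d2, d3⟩ => c1 ⟨C, d2,
            ⟨fun e he => (mem_filter.1 (d1 he)).2, d3⟩,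
            fun e he => (mem_filter.1 (mem_filter.1 (d1 he)).1).2⟩
      rw [card_pair hy.symm] at c4
      omega
  obtain ⟨z, hz, hz'⟩ : ∃ z : ℤ, |z| = |f e2| ∧ ((if s e1 = x then z else 0) - if t e1 = x then z else 0)
      + ((if s e2 = x then f e2 else 0) - if t e2 = x then f e2 else 0) = 0 := by
    by_cases j : (s e1 = x ↔ s e2 = x)
    · exact ⟨-f e2, abs_neg _, by
        by_cases j1 : s e1 = x <;> by_cases j2 : t e1 = x <;> by_cases j3 : t e2 = x <;> simp_all⟩
    · exact ⟨f e2, rfl, by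
        by_cases j1 : s e1 = x <;> by_cases j2 : t e1 = x <;> by_cases j3 : t e2 = x <;> simp_all⟩
  refine ⟨Function.update f e1 z, fun e => ?_, ?_⟩
  · by_cases j : e = e1
    · rw [j, Function.update_self, hz]
      exact f1 e2
    · rw [Function.update_of_ne j]
      exact f1 e
  have key : ∀ v, v ≠ y → ∑ e ∈ univ.filter (fun e => s e = v), Function.update f e1 z e =
      ∑ e ∈ univ.filter (fun e => t e = v), Function.update f e1 z e := fun v hv => by
    by_cases j : v = x
    · rw [j, ← sub_eq_zero, sum_filter, sum_filter, ← sum_sub_distrib,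
        ← sum_subset (subset_univ {e1, e2}) fun e _ he => by
          rw [if_congr (not_not.1 (mt (hE' e).1 (by simpa using he))) rfl rfl, sub_self],
        sum_pair h12, Function.update_self, Function.update_of_ne h12.symm]
      exact hz'
    · have k := f2 v
      simp only [πv v j hv] at k
      have b : s e1 ≠ v ∧ t e1 ≠ v := by
        rcases hxy with j1 | j1 <;> simp [j1.1, j1.2, Ne.symm j, Ne.symm hv]
      refine Eq.trans (sum_congr rfl fun e he => ?_) (k.trans (sum_congr rfl fun e he => ?_))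
      · exact Function.update_of_ne (fun j' : e = e1 => b.1 (j' ▸ (mem_filter.1 he).2)) _ _
      · exact (Function.update_of_ne (fun j' : e = e1 => b.2 (j' ▸ (mem_filter.1 he).2)) _ _).symm
  intro v
  by_cases hv : v = y
  · have k1 := sum_fiberwise univ s (Function.update f e1 z)
    have k2 := sum_fiberwise univ t (Function.update f e1 z)
    rw [← add_sum_erase _ _ (mem_univ y)] at k1 k2
    rw [sum_congr rfl fun u hu => key u (mem_erase.1 hu).1] at k1
    rw [hv]
    exact add_right_cancel (k1.trans k2.symm)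
  · exact key v hv

end Pool.Agent.Lib.MP_c8786f_co.Gen
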