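import Pool.Agent.Lib.MP_c8786f_co.W5.FinalA

/-!
Graphs of minimum degree at least three: volumes, tight cyclic cuts, short cycles.
-/

namespace Pool.Agent.Lib.MP_c8786f_co.Gen

open Finset W5
open scoped Classical

set_option linter.unusedSectionVars false

variable {V E : Type} [Fintype V] [DecidableEq V] [Fintype E]

/-- degree of `v` in the edge set `C` -/
def dg (s t : E → V) (C : Finset E) (v : V) : ℕ :=
  (C.filter fun e => s e = v).card + (C.filter fun e => t e = v).card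

/-- `C` is an even edge set inside `Y` -/
def Ev (s t : E → V) (C : Finset E) (Y : Finset V) : Prop :=
  (∀ e ∈ C, s e ∈ Y ∧ t e ∈ Y) ∧ ∀ v, Even (dg s t C v)

/-- `Y` contains a cycle -/
def Cyc (s t : E → V) (Y : Finset V) : Prop := ∃ C : Finset E, C.Nonempty ∧ Ev s t C Y

/-- sum of the degrees -/
def vol (s t : E → V) (Y : Finset V) : ℕ := ∑ v ∈ Y, dg s t univ v

/-- the edge crosses the cut -/
def Cr (s t : E → V) (X : Finset V) (e : E) : Prop := ¬(s e ∈ X ↔ t e ∈ X)

/-- the edges at `v` -/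
def star (s t : E → V) (v : V) : Finset E := univ.filter fun e => s e = v ∨ t e = v

/-- cyclic edge connectivity -/
def Con (s t : E → V) (k : ℕ) : Prop := ∀ Y, Cyc s t Y → Cyc s t Yᶜ → k ≤ cut s t Y

/-- a tight cyclic cut avoiding `v` -/
def Tight (s t : E → V) (k : ℕ) (v : V) (X : Finset V) : Prop :=
  v ∉ X ∧ Cyc s t X ∧ Cyc s t Xᶜ ∧ cut s t X ≤ k

variable {s t : E → V}

lemma mem_star {v : V} {e : E} : e ∈ star s t v ↔ s e = v ∨ t e = v := by simp [star]

lemma cut_sum (s t : E → V) (X : Finset V) :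
    cut s t X = ∑ e, if (s e ∈ X ↔ t e ∈ X) then 0 else 1 := by
  unfold cut
  rw [card_filter]
  exact sum_congr rfl fun e _ => by simp only [ite_not]

lemma degsum (s t : E → V) (C : Finset E) (Y : Finset V) :
    ∑ v ∈ Y, dg s t C v = 2 * (C.filter fun e => s e ∈ Y ∧ t e ∈ Y).card +
      (C.filter fun e => ¬(s e ∈ Y ↔ t e ∈ Y)).card := by
  unfold dg
  simp only [card_filter]
  rw [sum_add_distrib, sum_comm, sum_comm (s := Y), ← sum_add_distrib, mul_sum,
    ← sum_add_distrib]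
  refine sum_congr rfl fun e _ => ?_
  simp only [sum_ite_eq]
  by_cases h1 : s e ∈ Y <;> by_cases h2 : t e ∈ Y <;> simp [h1, h2]

lemma dg_star (hl : ∀ e, s e ≠ t e) (v : V) : dg s t univ v = (star s t v).card := by
  unfold dg star
  rw [filter_or, card_union_of_disjoint]
  exact disjoint_filter.2 fun e _ h1 h2 => hl e (h1.trans h2.symm)

lemma Cyc.mono {X Y : Finset V} (h : Cyc s t X) (hXY : X ⊆ Y) : Cyc s t Y := by
  obtain ⟨C, h1, h2, h3⟩ := h
  exact ⟨C, h1, fun e he => ⟨hXY (h2 e he).1, hXY (h2 e he).2⟩, h3⟩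

lemma three_le_vol (h3 : ∀ v, 3 ≤ dg s t univ v) (Y : Finset V) : 3 * Y.card ≤ vol s t Y := by
  rw [mul_comm]
  exact card_nsmul_le_sum Y _ 3 fun v _ => h3 v

lemma vol_le (h3 : ∀ v, 3 ≤ dg s t univ v) {Y : Finset V} (h : ¬ Cyc s t Y) :
    vol s t Y ≤ 3 * cut s t Y := by
  rcases Y.eq_empty_or_nonempty with rfl | hY
  · simp [vol]
  have h1 := three_le_vol h3 Y
  have h2 : vol s t Y = _ + cut s t Y := degsum s t univ Y
  have h4 : ¬Y.card ≤ (univ.filter fun e => s e ∈ Y ∧ t e ∈ Y).card :=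
    fun h' => h (fin_forest s t Y hY h')
  omega

lemma vol_union (X Y : Finset V) : vol s t (X ∪ Y) ≤ vol s t X + vol s t Y := by
  unfold vol
  rw [← sum_union_inter]
  exact Nat.le_add_right _ _

lemma vol_mono {X Y : Finset V} (h : X ⊆ Y) : vol s t X ≤ vol s t Y :=
  sum_le_sum_of_subset h

lemma cut_sub (s t : E → V) (X Y : Finset V) :
    cut s t (X ∩ Y) + cut s t (X ∪ Y) ≤ cut s t X + cut s t Y := by
  simp only [cut_sum, ← sum_add_distrib]
  refine sum_le_sum fun e _ => ?_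
  by_cases h1 : s e ∈ X <;> by_cases h2 : t e ∈ X <;> by_cases h3 : s e ∈ Y <;>
    by_cases h4 : t e ∈ Y <;> simp [h1, h2, h3, h4]

lemma cut_pos {v : V} {X Y : Finset V} {a : E} (ha : a ∈ star s t v) (hX : v ∉ X) (hY : v ∉ Y)
    (h1 : Cr s t X a) (h2 : Cr s t Y a) :
    cut s t (X \ Y) + cut s t (Y \ X) < cut s t X + cut s t Y := by
  simp only [cut_sum, ← sum_add_distrib]
  refine sum_lt_sum (fun e _ => ?_) ⟨a, mem_univ _, ?_⟩
  · by_cases h1 : s e ∈ X <;> by_cases h2 : t e ∈ X <;> by_cases h3 : s e ∈ Y <;>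
      by_cases h4 : t e ∈ Y <;> simp [h1, h2, h3, h4]
  · unfold Cr at h1 h2
    rcases mem_star.1 ha with h | h
    · have k1 : t a ∈ X := by rw [h] at h1; tauto
      have k2 : t a ∈ Y := by rw [h] at h2; tauto
      simp [h, hX, hY, k1, k2]
    · have k1 : s a ∈ X := by rw [h] at h1; tauto
      have k2 : s a ∈ Y := by rw [h] at h2; tauto
      simp [h, hX, hY, k1, k2]

lemma tight_aux {k : ℕ} (h3 : ∀ v, 3 ≤ dg s t univ v) (hc : Con s t k)
    (hW : ∀ Y, Cyc s t Y → 12 * k < vol s t Y) {v : V} {X Y : Finset V}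
    (hX : Tight s t k v X) (hY : Tight s t k v Y) (hd : cut s t (Y \ X) ≤ 2 * k)
    (ha : ¬ Cyc s t (Y \ X)) : Tight s t k v (X ∪ Y) := by
  have h1 := vol_le h3 ha
  have h2 := cut_sub s t X Y
  have hx := hX.2.2.2
  have hy := hY.2.2.2
  have h4 : Cyc s t (X ∩ Y) := by
    by_contra h
    have k1 := vol_le h3 h
    have k2 := hW Y hY.2.1
    have k3 := (vol_mono (s := s) (t := t) (show Y ⊆ X ∩ Y ∪ Y \ X from fun x hx => by
      simp only [mem_union, mem_inter, mem_sdiff]; tauto)).trans (vol_union _ _)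
    omega
  have h5 := hc _ h4 (hX.2.2.1.mono (compl_subset_compl.2 inter_subset_left))
  refine ⟨by simp [hX.1, hY.1], hX.2.1.mono subset_union_left, ?_, by omega⟩
  by_contra h
  have k1 := vol_le h3 h
  rw [cut_compl] at k1
  have k2 := hW _ hX.2.2.1
  have k3 := (vol_mono (s := s) (t := t) (show Xᶜ ⊆ (X ∪ Y)ᶜ ∪ Y \ X from fun x hx => by
    simp only [mem_union, mem_compl, mem_sdiff] at hx ⊢; tauto)).trans (vol_union _ _)
  omega

lemma tight_union {k : ℕ} (h3 : ∀ v, 3 ≤ dg s t univ v) (hc : Con s t k)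
    (hW : ∀ Y, Cyc s t Y → 12 * k < vol s t Y) {v : V} {X Y : Finset V} {a : E}
    (ha : a ∈ star s t v) (hX : Tight s t k v X) (hY : Tight s t k v Y)
    (h1 : Cr s t X a) (h2 : Cr s t Y a) : Tight s t k v (X ∪ Y) := by
  have h4 := cut_pos ha hX.1 hY.1 h1 h2
  have hx := hX.2.2.2
  have hy := hY.2.2.2
  by_cases k1 : Cyc s t (Y \ X)
  · by_cases k2 : Cyc s t (X \ Y)
    · have k3 := hc _ k1 (hX.2.1.mono fun x hx => by simp [hx])
      have k4 := hc _ k2 (hY.2.1.mono fun x hx => by simp [hx])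
      omega
    · rw [union_comm]
      exact tight_aux h3 hc hW hY hX (by omega) k2
  · exact tight_aux h3 hc hW hX hY (by omega) k1

/-- The partners of `a` in a common tight cut: at most `k`, and not all edges at `v`. -/
lemma tight_few {k : ℕ} (hl : ∀ e, s e ≠ t e) (h3 : ∀ v, 3 ≤ dg s t univ v) (hc : Con s t k)
    (hW : ∀ Y, Cyc s t Y → 12 * k < vol s t Y) {v : V} {a : E} (ha : a ∈ star s t v) :
    ∃ B : Finset E, B.card ≤ k + 1 ∧ a ∈ B ∧ ¬ star s t v ⊆ B ∧
      ∀ c ∈ star s t v, ∀ X, Tight s t k v X → Cr s t X a → Cr s t X c → c ∈ B := by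
  by_cases hne : ∃ X, Tight s t k v X ∧ Cr s t X a
  swap
  · refine ⟨{a}, by simp, mem_singleton_self _, fun h => ?_, fun c _ X h1 h2 =>
      absurd ⟨X, h1, h2⟩ hne⟩
    have h1 := card_le_card h
    have h2 := h3 v
    rw [dg_star hl] at h2
    rw [card_singleton] at h1
    omega
  obtain ⟨X0, hX0⟩ := hne
  obtain ⟨X, hX, hmax⟩ := exists_max_image (univ.filter fun X : Finset V =>
    Tight s t k v X ∧ Cr s t X a) card ⟨X0, mem_filter.2 ⟨mem_univ _, hX0⟩⟩
  obtain ⟨-, hT, hXa⟩ := mem_filter.1 hX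
  refine ⟨univ.filter fun e => ¬(s e ∈ X ↔ t e ∈ X), hT.2.2.2.trans (Nat.le_succ _),
    mem_filter.2 ⟨mem_univ _, hXa⟩, fun h => ?_, fun c hc' Y hY h1 h2 => ?_⟩
  · have h1 : cut s t (insert v X) + (star s t v).card = cut s t X := by
      rw [star, card_filter]
      simp only [cut_sum, ← sum_add_distrib]
      refine sum_congr rfl fun e _ => ?_
      have h2 := fun he => (mem_filter.1 (h (mem_star.2 (he : s e = v ∨ t e = v)))).2
      have h4 := hT.1
      by_cases k1 : s e = v <;> by_cases k2 : t e = v <;> simp_all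
    have h2 := h3 v
    rw [dg_star hl] at h2
    have hx := hT.2.2.2
    have h4 : ¬ Cyc s t (insert v X)ᶜ := fun h' => by
      have := hc _ (hT.2.1.mono (subset_insert v X)) h'
      omega
    have k1 := vol_le h3 h4
    rw [cut_compl] at k1
    have k2 := hW _ hT.2.2.1
    have k3 := (vol_mono (s := s) (t := t) (show Xᶜ ⊆ (insert v X)ᶜ ∪ {v} from fun x hx => by
      simp only [mem_union, mem_compl, mem_insert, mem_singleton] at hx ⊢; tauto)).trans
      (vol_union _ _)
    have k4 : vol s t {v} = (star s t v).card := by rw [vol, sum_singleton, dg_star hl]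
    omega
  · have hU := tight_union h3 hc hW ha hT hY hXa h1
    have hv := hT.1
    have hv' := hY.1
    have k1 := hmax (X ∪ Y) (mem_filter.2 ⟨mem_univ _, hU, by
      unfold Cr at hXa ⊢
      rcases mem_star.1 ha with h | h <;> simp_all⟩)
    have k2 : Y ⊆ X := by
      rw [eq_of_subset_of_card_le subset_union_left k1]
      exact subset_union_right
    refine mem_filter.2 ⟨mem_univ _, ?_⟩
    unfold Cr at h2
    rcases mem_star.1 hc' with h | h
    · have : t c ∈ X := k2 (by rw [h] at h2; tauto)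
      simp [h, hv, this]
    · have : s c ∈ X := k2 (by rw [h] at h2; tauto)
      simp [h, hv, this]

/-- One step through cubic vertices. -/
noncomputable def nb (s t : E → V) (v : V) (Z : Finset V) : Finset V :=
  Z ∪ ((Z.filter fun z => dg s t univ z = 3).biUnion fun z =>
    (star s t z).image fun e => if s e = z then t e else s e).erase v

lemma nb_card (hl : ∀ e, s e ≠ t e) (v : V) (Z : Finset V) : (nb s t v Z).card ≤ 4 * Z.card := by
  have h1 := card_biUnion_le_card_mul (Z.filter fun z => dg s t univ z = 3)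
    (fun z => (star s t z).image fun e => if s e = z then t e else s e) 3 fun z hz => by
      rw [← (mem_filter.1 hz).2, dg_star hl]
      exact card_image_le
  have h2 := card_filter_le Z fun z => dg s t univ z = 3
  exact (card_union_le _ _).trans (le_trans (Nat.add_le_add_left (card_erase_le.trans h1) _)
    (by omega))

/-- The partners of `a` on a short cycle through cubic vertices. -/
lemma short_few (hl : ∀ e, s e ≠ t e) (g : ℕ) {v : V} {a : E} (ha : a ∈ star s t v) :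
    ∃ B : Finset E, B.card ≤ 3 * 4 ^ g ∧ ∀ c C Y, Ev s t C Y → a ∈ C →
      (∀ e ∈ C, e ∈ star s t v → e = a ∨ e = c) → Y.card < g →
      (∀ x ∈ Y, x ≠ v → dg s t univ x = 3) → c ∈ B := by
  obtain ⟨u, hu, hau⟩ : ∃ u, u ≠ v ∧ (s a = u ∧ t a = v ∨ s a = v ∧ t a = u) := by
    rcases mem_star.1 ha with h | h
    · exact ⟨t a, fun h' => hl a (h.trans h'.symm), Or.inr ⟨h, rfl⟩⟩
    · exact ⟨s a, fun h' => hl a (h'.trans h.symm), Or.inl ⟨rfl, h⟩⟩
  let R : ℕ → Finset V := fun i => (nb s t v)^[i] {u}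
  have hR : ∀ i, R (i + 1) = nb s t v (R i) := fun i => Function.iterate_succ_apply' _ _ _
  have hm : Monotone R := monotone_nat_of_le_succ fun i => by rw [hR]; exact subset_union_left
  have hc : ∀ i, (R i).card ≤ 4 ^ i ∧ v ∉ R i := fun i => by
    induction i with
    | zero => simp [R, hu.symm]
    | succ i ih =>
      rw [hR, pow_succ']
      exact ⟨(nb_card hl v _).trans (Nat.mul_le_mul_left _ ih.1), by simp [nb, ih.2]⟩
  refine ⟨((R g).filter fun z => dg s t univ z = 3).biUnion (star s t), ?_, ?_⟩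
  · refine (card_biUnion_le_card_mul _ _ 3 fun z hz => ?_).trans ?_
    · rw [← (mem_filter.1 hz).2, dg_star hl]
    · rw [mul_comm]
      exact Nat.mul_le_mul_left _ ((card_filter_le _ _).trans (hc g).1)
  intro c C Y hC haC hv hY h3
  obtain ⟨i, hi, hst⟩ : ∃ i, i < g ∧ R (i + 1) ∩ Y ⊆ R i ∩ Y := by
    by_contra hn
    push Not at hn
    have : ∀ i, i ≤ g → i ≤ (R i ∩ Y).card := fun i => by
      induction i with
      | zero => simp
      | succ i ih =>
        exact fun h => Nat.succ_le_of_lt ((ih (by omega)).trans_lt (card_lt_card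
          ⟨inter_subset_inter_right (hm i.le_succ), hn i h⟩))
    have h1 := (this g le_rfl).trans (card_le_card inter_subset_right)
    omega
  have hvZ : v ∉ R i ∩ Y := fun h => (hc i).2 (mem_inter.1 h).1
  have hZ3 : ∀ z ∈ R i ∩ Y, dg s t univ z = 3 := fun z hz =>
    h3 z (mem_inter.1 hz).2 fun h => hvZ (h ▸ hz)
  have hcl : ∀ e ∈ C, ¬(s e ∈ R i ∩ Y ↔ t e ∈ R i ∩ Y) → e ∈ star s t v := by
    intro e he hcr
    by_contra hn
    rw [mem_star, not_or] at hn
    refine hcr ⟨fun h => hst (mem_inter.2 ⟨?_, (hC.1 e he).2⟩),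
      fun h => hst (mem_inter.2 ⟨?_, (hC.1 e he).1⟩)⟩
    · rw [hR]
      exact mem_union_right _ (mem_erase.2 ⟨hn.2, mem_biUnion.2 ⟨s e,
        mem_filter.2 ⟨(mem_inter.1 h).1, hZ3 _ h⟩,
        mem_image.2 ⟨e, mem_star.2 (Or.inl rfl), if_pos rfl⟩⟩⟩)
    · rw [hR]
      exact mem_union_right _ (mem_erase.2 ⟨hn.1, mem_biUnion.2 ⟨t e,
        mem_filter.2 ⟨(mem_inter.1 h).1, hZ3 _ h⟩,
        mem_image.2 ⟨e, mem_star.2 (Or.inr rfl), if_neg (hl e)⟩⟩⟩)
  have huZ : u ∈ R i ∩ Y := mem_inter.2 ⟨hm (Nat.zero_le i) (mem_singleton_self u), by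
    rcases hau with h | h
    · exact h.1 ▸ (hC.1 a haC).1
    · exact h.2 ▸ (hC.1 a haC).2⟩
  have hcr : ¬(s c ∈ R i ∩ Y ↔ t c ∈ R i ∩ Y) := by
    intro hn
    have h1 := degsum s t C (R i ∩ Y)
    have h2 : C.filter (fun e => ¬(s e ∈ R i ∩ Y ↔ t e ∈ R i ∩ Y)) = {a} := by
      refine eq_singleton_iff_unique_mem.2 ⟨mem_filter.2 ⟨haC, ?_⟩, fun e he => ?_⟩
      · rcases hau with h | h <;> rw [h.1, h.2] <;> tauto
      · obtain ⟨k1, k2⟩ := mem_filter.1 he
        exact (hv e k1 (hcl e k1 k2)).resolve_right fun h => k2 (h ▸ hn)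
    rw [h2, card_singleton] at h1
    obtain ⟨r, hr⟩ := even_sum (s := R i ∩ Y) _ fun z _ => hC.2 z
    omega
  have key : ∀ z ∈ R i ∩ Y, c ∈ star s t z →
      c ∈ ((R g).filter fun z => dg s t univ z = 3).biUnion (star s t) := fun z hz h =>
    mem_biUnion.2 ⟨z, mem_filter.2 ⟨hm hi.le (mem_inter.1 hz).1, hZ3 z hz⟩, h⟩
  by_cases h : s c ∈ R i ∩ Y
  · exact key _ h (mem_star.2 (Or.inl rfl))
  · exact key (t c) (by tauto) (mem_star.2 (Or.inr rfl))

end Pool.Agent.Lib.MP_c8786f_co.Gen
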