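import Pool.Agent.Lib.MP_c8786f_co.Gen.Small

/-!
A graph of minimum degree at least three in which a shortest cycle meets all cycles has a
nowhere-zero four-flow.
-/

namespace Pool.Agent.Lib.MP_c8786f_co.Gen

open Finset W5
open scoped Classical

set_option linter.unusedSectionVars false

variable {V E : Type} [Fintype V] [DecidableEq V] [Fintype E] {s t : E → V}

lemma dg_map {P : E → Prop} (C : Finset {e // P e}) (v : V) :
    dg s t (C.map (Function.Embedding.subtype _)) v =
      dg (fun e : {e // P e} => s e.1) (fun e => t e.1) C v := by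
  unfold dg
  rw [filter_map, filter_map, card_map, card_map]
  rfl

lemma sub_forest (D : Finset E) {Y : Finset V} (hY : Y.Nonempty)
    (hin : ∀ e ∈ D, s e ∈ Y ∧ t e ∈ Y) (h : Y.card ≤ D.card) :
    ∃ C ⊆ D, C.Nonempty ∧ ∀ v, Even (dg s t C v) := by
  obtain ⟨C, h1, -, h2⟩ := fin_forest (fun e : {e // e ∈ D} => s e.1) (fun e => t e.1) Y hY (by
    rw [filter_true_of_mem fun e _ => hin e.1 e.2]
    simpa using h)
  refine ⟨C.map (Function.Embedding.subtype _), fun e he => ?_, h1.map, fun v => ?_⟩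
  · obtain ⟨e', -, rfl⟩ := mem_map.1 he
    exact e'.2
  · rw [dg_map]
    exact h2 v

lemma card_sym (A B : Finset E) (P : E → Prop) [DecidablePred P] :
    ((symmDiff A B).filter P).card + 2 * ((A ∩ B).filter P).card =
      (A.filter P).card + (B.filter P).card := by
  simp only [card_ind, mul_sum, ← sum_add_distrib]
  refine sum_congr rfl fun e _ => ?_
  by_cases h1 : e ∈ A <;> by_cases h2 : e ∈ B <;> simp [ind, mem_symmDiff, h1, h2]

lemma theta {C0 : Finset E} (h0 : C0.Nonempty) (he : ∀ v, Even (dg s t C0 v))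
    (hmin : ∀ C : Finset E, C.Nonempty → (∀ v, Even (dg s t C v)) → C0.card ≤ C.card)
    {D : Finset E} (hD : Disjoint C0 D) {Y : Finset V} (hin : ∀ e ∈ C0 ∪ D, s e ∈ Y ∧ t e ∈ Y)
    (h : Y.card + 1 ≤ C0.card + D.card) : C0.card ≤ 2 * D.card := by
  obtain ⟨c, hc⟩ := h0
  have h1 := card_erase_add_one hc
  obtain ⟨C, k1, k2, k3⟩ := sub_forest (C0.erase c ∪ D) ⟨_, (hin c (mem_union_left _ hc)).1⟩
    (fun e he => hin e (union_subset_union_left (erase_subset _ _) he)) (by
      rw [card_union_of_disjoint (hD.mono_left (erase_subset _ _))]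
      omega)
  have k4 := hmin C k2 k3
  have k5 := hmin (symmDiff C C0) ⟨c, mem_symmDiff.2 (Or.inr ⟨hc, fun j => by
    rcases mem_union.1 (k1 j) with j | j
    · exact notMem_erase _ _ j
    · exact disjoint_left.1 hD hc j⟩)⟩ fun v => by
      have j1 := card_sym C C0 fun e => s e = v
      have j2 := card_sym C C0 fun e => t e = v
      have j3 := k3 v
      have j4 := he v
      unfold dg at j3 j4 ⊢
      rw [Nat.even_iff] at j3 j4 ⊢
      omega
  have k6 := card_sym C C0 fun _ => True
  simp only [filter_true] at k6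
  have k7 : C.card ≤ _ := (card_le_card (show C ⊆ C ∩ C0 ∪ D from fun e j => by
    rcases mem_union.1 (k1 j) with j' | j'
    · exact mem_union_left _ (mem_inter.2 ⟨j, mem_of_mem_erase j'⟩)
    · exact mem_union_right _ j')).trans (card_union_le _ _)
  omega

lemma dg_pos {C : Finset E} {v : V} : dg s t C v ≠ 0 ↔ ∃ e ∈ C, s e = v ∨ t e = v := by
  simp only [dg, ne_eq, Nat.add_eq_zero_iff, card_eq_zero, filter_eq_empty_iff]
  constructor
  · intro h
    by_contra hn
    exact h ⟨fun e he k => hn ⟨e, he, Or.inl k⟩, fun e he k => hn ⟨e, he, Or.inr k⟩⟩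
  · rintro ⟨e, he, k | k⟩ h
    · exact h.1 he k
    · exact h.2 he k

theorem exc {k p q : ℕ} (hpq : 4 * q ≤ p) (hk : 4 < k) (hl : ∀ e, s e ≠ t e)
    (h3 : ∀ v, 3 ≤ dg s t univ v) (hc : Con s t k) {Y : Finset V} (hY : Cyc s t Y)
    (H : ∀ Z, Cyc s t Z → Z.card ≤ Y.card → ¬ Cyc s t Zᶜ) : Flow s t p q := by
  obtain ⟨C1, c1, c2⟩ := hY
  obtain ⟨C, hC, hmin'⟩ := exists_min_image (univ.filter fun C : Finset E =>
    C.Nonempty ∧ ∀ v, Even (dg s t C v)) card ⟨C1, mem_filter.2 ⟨mem_univ _, c1, c2.2⟩⟩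
  obtain ⟨-, h0, he⟩ := mem_filter.1 hC
  have hmin : ∀ C' : Finset E, C'.Nonempty → (∀ v, Even (dg s t C' v)) → C.card ≤ C'.card :=
    fun C' k1 k2 => hmin' C' (mem_filter.2 ⟨mem_univ _, k1, k2⟩)
  obtain ⟨Z, hZ⟩ : ∃ Z : Finset V, ∀ v, v ∈ Z ↔ dg s t C v ≠ 0 :=
    ⟨univ.filter fun v => dg s t C v ≠ 0, by simp⟩
  have hin : ∀ e ∈ C, s e ∈ Z ∧ t e ∈ Z := fun e k =>
    ⟨(hZ _).2 (dg_pos.2 ⟨e, k, Or.inl rfl⟩), (hZ _).2 (dg_pos.2 ⟨e, k, Or.inr rfl⟩)⟩
  have h2 : ∀ v ∈ Z, 2 ≤ dg s t C v := fun v k => by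
    have := (hZ v).1 k
    have := Nat.even_iff.1 (he v)
    omega
  have hsum : ∑ v ∈ Z, dg s t C v = 2 * C.card := by
    rw [degsum, filter_true_of_mem hin, filter_false_of_mem fun e k => by simp [hin e k]]
    simp
  have hpos := card_pos.2 h0
  have hle : Z.card * 2 ≤ ∑ v ∈ Z, dg s t C v := card_nsmul_le_sum Z _ 2 h2
  have hcard : Z.card = C.card := by
    have := fun h => theta h0 he hmin (disjoint_empty_right _) (Y := Z) (by simpa using hin) h
    rw [card_empty] at this
    omega
  have hdeg : ∀ v ∈ Z, dg s t C v = 2 := fun v k => by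
    by_contra hn
    have : ∑ _x ∈ Z, 2 < ∑ v ∈ Z, dg s t C v := sum_lt_sum h2 ⟨v, k, (h2 v k).lt_of_ne (Ne.symm hn)⟩
    rw [sum_const, smul_eq_mul] at this
    omega
  have hF : ¬ Cyc s t Zᶜ := H Z ⟨C, h0, hin, he⟩ (by
    by_cases j : Y.card ≤ C1.card
    · obtain ⟨D, d1, d2⟩ := exists_subset_card_eq j
      obtain ⟨e, k1⟩ := c1
      obtain ⟨C', k2, k3, k4⟩ := sub_forest D ⟨_, (c2.1 e k1).1⟩ (fun e k => c2.1 e (d1 k)) d2.ge
      have := hmin C' k3 k4
      have := card_le_card k2
      omega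
    · have := hmin C1 c1 c2.2
      omega)
  have chord : ∀ e, e ∉ C → s e ∈ Z → t e ∈ Z → C.card ≤ 2 := fun e k1 k2 k3 =>
    theta h0 he hmin (disjoint_singleton_right.2 k1) (Y := Z) (fun e' k => by
      rcases mem_union.1 k with k | k
      · exact hin e' k
      · rw [mem_singleton.1 k]; exact ⟨k2, k3⟩) (by rw [card_singleton]; omega)
  have hout : ∀ e ∈ C, s e ∉ Zᶜ ∧ t e ∉ Zᶜ := fun e k => by simpa using hin e k
  have h4 : C.card ≤ 4 := by
    rcases Zᶜ.eq_empty_or_nonempty with j | j
    · have j1 : Z = univ := by simpa using j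
      have j2 := three_le_vol h3 Z
      rw [vol, degsum, j1] at j2
      rw [j1] at hcard
      obtain ⟨e, -, k⟩ := exists_mem_notMem_of_card_lt_card (show C.card < (univ : Finset E).card by
        simp at j2 hcard ⊢
        omega)
      have := chord e k (j1 ▸ mem_univ _) (j1 ▸ mem_univ _)
      omega
    · obtain ⟨y, hy, e1, e2, h12, k1, k2⟩ := leaf h3 j hF
      have key : ∀ e, e ∈ star s t y ∧ Cr s t Zᶜ e →
          e ∉ C ∧ s e ∈ insert y Z ∧ t e ∈ insert y Z := fun e k => by
        refine ⟨fun j => by have := (cr_leaf hy k).2.2.1; have := hout e j; tauto, ?_⟩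
        have k' := k.2
        unfold Cr at k'
        rcases mem_star.1 k.1 with j | j <;> simp_all
      have := theta h0 he hmin (D := {e1, e2}) (Y := insert y Z) (by
        simp [(key e1 k1).1, (key e2 k2).1]) (fun e k => by
          simp only [mem_union, mem_insert (a := e), mem_singleton] at k
          rcases k with k | rfl | rfl
          · exact ⟨mem_insert_of_mem (hin e k).1, mem_insert_of_mem (hin e k).2⟩
          · exact (key _ k1).2
          · exact (key _ k2).2) (by
          have := card_insert_le y Z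
          rw [card_pair h12]
          omega)
      rw [card_pair h12] at this
      omega
  obtain ⟨c, hc0⟩ := h0
  obtain ⟨x, hx⟩ : ∃ x, x ∈ Z := ⟨_, (hin c hc0).1⟩
  obtain ⟨P, hP, hP'⟩ : ∃ P ⊆ Z, C.card = 4 → (∀ e ∈ C, Cr s t P e) ∧ P.card = 2 := by
    by_cases j : C.card = 4
    swap
    · exact ⟨∅, empty_subset _, fun h => absurd h j⟩
    have j1 : ((C.filter fun e => s e = x).image t ∪ (C.filter fun e => t e = x).image s).card ≤
        dg s t C x := (card_union_le _ _).trans (Nat.add_le_add card_image_le card_image_le)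
    obtain ⟨b, b1, b2⟩ := exists_mem_notMem_of_card_lt_card (show (insert x
      ((C.filter fun e => s e = x).image t ∪ (C.filter fun e => t e = x).image s)).card < Z.card
        from (card_insert_le _ _).trans_lt (by rw [hdeg x hx] at j1; omega))
    simp only [mem_insert, mem_union, mem_image, mem_filter, not_or, not_exists, not_and,
      and_imp] at b2
    have j2 := degsum s t C {x, b}
    rw [sum_pair (Ne.symm b2.1), hdeg x hx, hdeg b b1, filter_false_of_mem fun e k k' => by
      have := hl e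
      have := b2.2.1 e k
      have := b2.2.2 e k
      simp only [mem_insert, mem_singleton] at k'
      rcases k' with ⟨k1 | k1, k2 | k2⟩ <;> simp_all, card_empty] at j2
    refine ⟨{x, b}, insert_subset hx (singleton_subset_iff.2 b1), fun _ =>
      ⟨fun e k => ?_, card_pair (Ne.symm b2.1)⟩⟩
    rw [← eq_of_subset_of_card_le (filter_subset
      (fun e => ¬(s e ∈ ({x, b} : Finset V) ↔ t e ∈ ({x, b} : Finset V))) C) (by omega)] at k
    exact (mem_filter.1 k).2
  obtain ⟨f, f1, f2, f3⟩ := forest_flow h3 C Zᶜ hF hout P (disjoint_compl_right.mono_left hP)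
  obtain ⟨g, g1, g2⟩ := fix_flow (s := s) (t := t) C f (Z.erase x) fun W hW ⟨w, hw⟩ => by
    by_contra hn
    push Not at hn
    simp only [Cr, not_not] at hn
    obtain ⟨e, k1, k2⟩ := dg_pos.1 ((hZ w).1 (mem_of_mem_erase (hW hw)))
    obtain ⟨e', k3, k4⟩ := dg_pos.1 ((hZ x).1 hx)
    have hxW : x ∉ W := fun j => notMem_erase _ _ (hW j)
    have k5 := hmin (C.filter fun e => s e ∈ W) ⟨e, mem_filter.2 ⟨k1, by
      rcases k2 with k | k
      · rwa [k]
      · exact (hn e k1).2 (by rwa [k])⟩⟩ fun v => by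
      by_cases j : v ∈ W
      · rw [show dg s t (C.filter fun e => s e ∈ W) v = dg s t C v by
          unfold dg
          rw [filter_filter, filter_filter]
          congr 2
          · exact filter_congr fun e _ => ⟨And.right, fun k => ⟨k ▸ j, k⟩⟩
          · exact filter_congr fun e k' => ⟨And.right, fun k => ⟨(hn e k').2 (k ▸ j), k⟩⟩]
        exact he v
      · rw [not_not.1 (mt dg_pos.1 fun ⟨e, k, k'⟩ => j (by
          obtain ⟨j1, j2⟩ := mem_filter.1 k
          rcases k' with k' | k'
          · exact k' ▸ j2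
          · exact k' ▸ (hn e j1).1 j2))]
        exact Even.zero
    have k6 := card_lt_card (show (C.filter fun e => s e ∈ W) ⊂ C from ⟨filter_subset _ _,
      fun j => hxW (by
        have j2 := (mem_filter.1 (j k3)).2
        rcases k4 with k | k
        · exact k ▸ j2
        · exact k ▸ (hn e' k3).1 j2)⟩)
    omega
  have hcons : ∀ v, cs s t (f + g) {v} = 0 := by
    have k1 : ∀ v, v ≠ x → cs s t (f + g) {v} = 0 := fun v hv => by
      by_cases j : v ∈ Z
      · exact g2 v (mem_erase.2 ⟨hv, j⟩)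
      · rw [cs_add, f2 v (mem_compl.2 j), zero_add]
        refine sum_eq_zero fun e _ => ?_
        by_cases j' : e ∈ C
        · have a1 : s e ≠ v := fun a => j (a ▸ (hin e j').1)
          have a2 : t e ≠ v := fun a => j (a ▸ (hin e j').2)
          simp [Cr, a1, a2]
        · simp [g1 e j']
    intro v
    by_cases hv : v = x
    · have k2 := cs_sum (s := s) (t := t) (f + g) univ
      rw [sum_eq_single x (fun b _ hb => k1 b hb) (by simp)] at k2
      rw [hv, ← k2]
      simp [cs, Cr]
    · exact k1 v hv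
  obtain ⟨lam, hlam⟩ : ∃ lam : K4, lam ∉ C.image g := by
    by_contra hn
    push Not at hn
    have k1 : C.image g = univ := eq_univ_of_forall hn
    have k2 : (C.image g).card = 4 := by rw [k1]; rfl
    have k3 := card_image_le (s := C) (f := g)
    obtain ⟨p1, p2⟩ := hP' (by omega)
    have k4 : ∑ e ∈ C, g e = 0 := by
      rw [← sum_image (f := fun a => a) (card_image_iff.1 (by omega)), k1]
      decide
    have k5 : cs s t g P = ∑ e ∈ C, g e := by
      rw [cs, ← sum_subset (subset_univ C) fun e _ k => by simp [g1 e k]]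
      exact sum_congr rfl fun e k => if_pos (p1 e k)
    have k6 := cs_sum (s := s) (t := t) (f + g) P
    rw [sum_eq_zero fun v _ => hcons v, cs_add, k5, k4, add_zero] at k6
    refine f3 (fun X x1 x2 => ?_) k6
    by_contra hn
    push Not at hn
    have k7 : cut s t X ≤ C.card := card_le_card fun e k => by_contra fun j =>
      hn e j (mem_filter.1 k).2
    have key : ∀ W Q : Finset V, ¬ Cyc s t W → cut s t W ≤ 4 → Q ⊆ W → Q ⊆ Z → 2 ≤ Q.card →
        (∀ e ∈ C, ¬(s e ∈ Q ∧ t e ∈ Q)) → False := fun W Q w1 w2 w3 w4 w5 w6 => by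
      have a1 := card_le_card w3
      have a2 := acyc_card h3 (card_pos.1 (by omega)) w1
      have a3 : Q = W := eq_of_subset_of_card_le w3 (by omega)
      have a4 := three_le_vol h3 W
      have a5 : vol s t W = _ + cut s t W := degsum s t univ W
      obtain ⟨e, a6⟩ : (univ.filter fun e => s e ∈ W ∧ t e ∈ W).Nonempty := card_pos.1 (by omega)
      have a7 := (mem_filter.1 a6).2
      rw [← a3] at a7
      have := chord e (fun j => w6 e j a7) (w4 a7.1) (w4 a7.2)
      omega
    by_cases j : Cyc s t X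
    · refine key Xᶜ (Z \ P) (fun j' => by have := hc X j j'; omega) (by rw [cut_compl]; omega)
        (fun v hv => mem_compl.2 fun j' => ?_) sdiff_subset
        (by have := card_sdiff_add_card_eq_card hP; omega) fun e k k' => p1 e k (by
          simp [(mem_sdiff.1 k'.1).2, (mem_sdiff.1 k'.2).2])
      have := x2 j'
      simp_all
    · exact key X P j (by omega) x1 hP p2.ge fun e k k' => p1 e k (by simp [k'.1, k'.2])
  refine flow_of_k4 hpq (f + g + fun e => if e ∈ C then lam else 0) (fun e => ?_) fun v => ?_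
  · by_cases j : e ∈ C
    · simp only [Pi.add_apply, (f1 e).2 j, zero_add, if_pos j]
      intro k
      refine hlam (mem_image.2 ⟨e, j, ?_⟩)
      rw [← add_zero (g e), ← k4_add lam, ← add_assoc, k, zero_add]
    · simp only [Pi.add_apply, g1 e j, add_zero, if_neg j]
      exact fun k => j ((f1 e).1 k)
  · rw [cs_add, hcons, zero_add]
    obtain ⟨r, hr⟩ := (even_cr C v).1 (he v)
    have : cs s t (fun e => if e ∈ C then lam else 0) {v} = (C.filter (Cr s t {v})).card • lam := by
      rw [cs, ← sum_const, sum_filter, ← sum_subset (subset_univ C) fun e _ k => by simp [k]]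
      exact sum_congr rfl fun e k => by simp [k]
    rw [this, hr, add_nsmul, k4_add]

/-- The theorem for loopless graphs of minimum degree at least three. -/
theorem mindeg (k p q g : ℕ) (h : 4 * k * q + 4 * p < p * k)
    (hg : g = 2 ^ (2 ^ 64 * (p * k) ^ 5)) (s t : E → V) (hl : ∀ e, s e ≠ t e)
    (h3 : ∀ v, 3 ≤ dg s t univ v)
    (H : ∀ Y, Cyc s t Y → Cyc s t Yᶜ → k ≤ cut s t Y ∧ (32 ^ g ≤ cut s t Y ∨ g ≤ Y.card)) :
    Flow s t p q := by
  have hc : Con s t k := fun Y k1 k2 => (H Y k1 k2).1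
  by_cases hs : Clean s t g (16 ^ g)
  · exact general k p q g h hg s t hl h3 hc hs
  unfold Clean at hs
  push Not at hs
  obtain ⟨Y, y1, y2, y3⟩ := hs
  have h1 : 4 * k + 8 < g := hg ▸ girth_big h
  have h2 : 2 * g * 16 ^ g < 32 ^ g := by
    rw [show (32 : ℕ) = 2 * 16 from rfl, mul_pow]
    refine Nat.mul_lt_mul_of_pos_right ?_ (by positivity)
    obtain ⟨r, rfl⟩ : ∃ r, g = r + 5 := ⟨g - 5, by omega⟩
    have : r < 2 ^ r := Nat.lt_two_pow_self
    rw [pow_add]
    omega
  have h4 : vol s t Y ≤ g * 16 ^ g :=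
    (sum_le_card_nsmul Y _ _ fun x hx => (y2 x hx).le).trans (Nat.mul_le_mul_right _ y3.le)
  have h5 : vol s t Y = _ + cut s t Y := degsum s t univ Y
  rw [mul_assoc] at h2
  have h6 : ¬ Cyc s t Yᶜ := fun j => by have := (H Y y1 j).2; omega
  have h7 := vol_le h3 h6
  rw [cut_compl] at h7
  have h8 := vol_union (s := s) (t := t) Y Yᶜ
  rw [union_compl, vol, degsum] at h8
  simp only [mem_univ, and_self, filter_true] at h8
  have hk : 4 < k := by
    by_contra h'
    have : p * k ≤ p * 4 := Nat.mul_le_mul_left _ (by omega)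
    omega
  refine exc (by nlinarith) hk hl h3 hc y1 fun Z z1 z2 z3 => ?_
  have h9 : cut s t Z ≤ (univ : Finset E).card := card_le_card (subset_univ _)
  have := (H Z z1 z3).2
  omega

end Pool.Agent.Lib.MP_c8786f_co.Gen
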