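import Pool.Agent.Lib.MP_c8786f_co.Gen.Split
import Pool.Agent.Lib.MP_c8786f_co.W5.X6

/-!
Expansion of a graph of minimum degree at least three to a cubic graph, keeping the cyclic edge
connectivity and destroying the short cycles.
-/

namespace Pool.Agent.Lib.MP_c8786f_co.Gen

open Finset W5
open scoped Classical

set_option linter.unusedSectionVars false

variable {V E : Type} [Fintype V] [DecidableEq V] [Fintype E]

/-- every short cycle has a vertex of large degree -/
def Clean (s t : E → V) (g D : ℕ) : Prop :=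
  ∀ Y, Cyc s t Y → (∀ x ∈ Y, dg s t univ x < D) → g ≤ Y.card

/-- the vertex `v` is being expanded -/
def Inv (s t : E → V) (g D W : ℕ) (v : V) (j m : ℕ) : Prop :=
  m + j + 1 = g ∧ PA s t g D v ∧ PB s t m D v ∧
    (3 ^ j * W + (low s t m D v).card ≤ dg s t univ v ∨
      3 ^ (j + 1) * W + (low s t m D v).card ≤ 2 * dg s t univ v) ∧
    ∀ x, x ≠ v → dg s t univ x = 3 ∨ D ≤ dg s t univ x

/-- the invariant -/
def St (s t : E → V) (g D W : ℕ) : Prop := Clean s t g D ∨ ∃ v j m, Inv s t g D W v j m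

/-- a good split -/
def Good (s t : E → V) (k g D W : ℕ) : Prop :=
  ∃ v a c, 4 ≤ dg s t univ v ∧ a ∈ star s t v ∧ c ∈ star s t v ∧ a ≠ c ∧
    Con (sp v a c s none) (sp v a c t (some v)) k ∧
    St (sp v a c s none) (sp v a c t (some v)) g D W

variable {s t : E → V} {k g D W : ℕ}

lemma big_vol (h3 : ∀ v, 3 ≤ dg s t univ v) (hg : 4 * k + 2 < g) (hD : 12 * k + 4 < D) {Y : Finset V}
    (h : (∀ x ∈ Y, dg s t univ x ≤ 12 * k) → (∀ x ∈ Y, dg s t univ x < D) → g ≤ Y.card) :
    12 * k < vol s t Y := by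
  by_cases h1 : ∀ x ∈ Y, dg s t univ x ≤ 12 * k
  · have h2 := h h1 fun x hx => (h1 x hx).trans_lt (by omega)
    have := three_le_vol h3 Y
    omega
  · push Not at h1
    obtain ⟨x, j1, j2⟩ := h1
    exact j2.trans_le (single_le_sum (f := fun x => dg s t univ x) (fun _ _ => Nat.zero_le _) j1)

lemma step0 (hl : ∀ e, s e ≠ t e) (h3 : ∀ v, 3 ≤ dg s t univ v) (hc : Con s t k)
    (hg : 4 * k + 2 < g) (hD : 12 * k + 4 < D) {v : V} (hv : 4 ≤ dg s t univ v)
    (hB : PB s t g D v) : Good s t k g D W := by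
  obtain ⟨a, ha⟩ : (star s t v).Nonempty := card_pos.1 (by rw [← dg_star hl]; omega)
  obtain ⟨B, -, haB, h1, h2⟩ := tight_few hl h3 hc
    (fun Y hY => big_vol h3 hg hD fun _ h => hB Y hY fun x hx _ => h x hx) ha
  obtain ⟨c, hc1, hc2⟩ := not_subset.1 h1
  have hac : a ≠ c := fun h => hc2 (h ▸ haB)
  have hB' : PB (sp v a c s none) (sp v a c t (some v)) g D (some v) := hB.sp
  exact ⟨v, a, c, hv, ha, hc1, hac, con_sp h3 hc (fun X k1 k2 k3 => hc2 (h2 c hc1 X k1 k2 k3))
    (fun Y k1 k2 => hB' Y k1 fun x hx _ => (k2 x hx).2) (deg_none hl ha hc1 hac) (by omega)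
    (by omega), Or.inl fun Y k1 k2 => hB' Y k1 fun x hx _ => k2 x hx⟩

lemma PA.edge {v : V} (hA : PA s t g D v) {C : Finset E} {Y : Finset V} (hne : C.Nonempty)
    (hC : Ev s t C Y) (h : ∀ x ∈ Y, x ≠ v → dg s t univ x < D) (hY : Y.card < g) :
    ∃ e ∈ C, e ∈ star s t v := by
  by_contra hn
  push Not at hn
  simp only [mem_star, not_or] at hn
  have h1 := hA (Y.erase v) ⟨C, hne, fun e he => ⟨mem_erase.2 ⟨(hn e he).1, (hC.1 e he).1⟩,
    mem_erase.2 ⟨(hn e he).2, (hC.1 e he).2⟩⟩, hC.2⟩ fun x hx =>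
    ⟨(mem_erase.1 hx).1, h x (mem_erase.1 hx).2 (mem_erase.1 hx).1⟩
  have h2 := card_erase_le (s := Y) (a := v)
  omega

lemma step1 (hl : ∀ e, s e ≠ t e) (h3 : ∀ v, 3 ≤ dg s t univ v) (hc : Con s t k)
    (hg : 4 * k + 2 < g) (hD : 12 * k + 4 < D) (hW : 12 * k + 4 + 3 * 4 ^ g < W) {v : V} (j : ℕ) :
    ∀ m, Inv s t g D W v j m → Good s t k g D W := by
  induction j using Nat.strong_induction_on with
  | _ j ih =>
  rintro m ⟨hm, hA, hB, hd, hx⟩
  have hj : W ≤ 3 ^ j * W := Nat.le_mul_of_pos_left _ (by positivity)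
  have hj1 : 3 ^ (j + 1) * W = 3 * (3 ^ j * W) := by ring
  have hLd : ∀ m, (low s t m D v).card ≤ dg s t univ v := fun m => by
    rw [dg_star hl]
    exact card_le_card fun e he => (mem_low.1 he).1
  rcases (low s t m D v).eq_empty_or_nonempty with hL | ⟨a, ha⟩
  · have hB' : PB s t (m + 1) D v := by
      rintro Y ⟨C, k1, k2⟩ k3
      by_contra hn
      obtain ⟨e, k4, k5⟩ := hA.edge k1 k2 k3 (by omega)
      exact notMem_empty e (hL ▸ mem_low.2 ⟨k5, C, Y, k4, k2, k3, by omega⟩)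
    rcases j with _ | j
    · exact step0 hl h3 hc hg hD (by omega) ((show m + 1 = g by omega) ▸ hB')
    · have := hLd (m + 1)
      exact ih j j.lt_succ_self (m + 1) ⟨by omega, hA, hB', Or.inr (by omega), hx⟩
  have ha' := (mem_low.1 ha).1
  obtain ⟨B1, b1, haB, -, h1⟩ := tight_few hl h3 hc (fun Y hY => big_vol h3 hg hD fun h h' =>
    hA Y hY fun x hx => ⟨fun k => by have := h x hx; rw [k] at this; omega, h' x hx⟩) ha'
  obtain ⟨B2, b2, h2⟩ := short_few hl g ha'
  have b3 := card_union_le B1 B2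
  have key : ∀ c ∈ star s t v, c ∉ B1 ∪ B2 →
      (3 ^ j * W + (low s t m D v \ {a, c}).card + 1 ≤ dg s t univ v ∨
        3 ^ (j + 1) * W + (low s t m D v \ {a, c}).card + 2 ≤ 2 * dg s t univ v) →
      Good s t k g D W := by
    intro c hc1 hc2 hd'
    rw [mem_union, not_or] at hc2
    have hac : a ≠ c := fun h => hc2.1 (h ▸ haB)
    have hA' : PA (sp v a c s none) (sp v a c t (some v)) g D (some v) := by
      refine PA.sp fun C Y k1 k2 k3 k4 => ?_
      by_contra hn
      by_cases k5 : a ∈ C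
      · exact hc2.2 (h2 c C Y k2 k5 k3 (by omega) fun x k6 k7 =>
          (hx x k7).resolve_right (not_le.2 (k4 x k6 k7)))
      · obtain ⟨e, k6, k7⟩ := hA.edge k1 k2 k4 (by omega)
        have k8 := degsum s t C {v}
        rw [sum_singleton, show C.filter (fun e => ¬(s e ∈ ({v} : Finset V) ↔
          t e ∈ ({v} : Finset V))) = {e} from eq_singleton_iff_unique_mem.2 ⟨mem_filter.2 ⟨k6, by
            have := hl e
            rcases mem_star.1 k7 with h | h <;> simp_all [eq_comm]⟩, fun e' he' => by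
            obtain ⟨j1, j2⟩ := mem_filter.1 he'
            rw [(k3 e k6 k7).resolve_left fun h => k5 (h ▸ k6)]
            refine (k3 e' j1 (mem_star.2 ?_)).resolve_left fun h => k5 (h ▸ j1)
            simp only [mem_singleton] at j2
            tauto⟩, card_singleton] at k8
        obtain ⟨r, hr⟩ := k2.2 v
        omega
    have k1 := deg_v hl ha' hc1 hac
    have k2 := low_sp (a := a) (c := c) hB
    refine ⟨v, a, c, by omega, ha', hc1, hac, con_sp h3 hc
      (fun X k1 k2 k3 => hc2.1 (h1 c hc1 X k1 k2 k3)) hA' (deg_none hl ha' hc1 hac) (by omega)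
      (by omega), Or.inr ⟨some v, j, m, hm, hA', hB.sp, by omega, fun x k3 => ?_⟩⟩
    cases x with
    | none => exact Or.inl (deg_none hl ha' hc1 hac)
    | some x =>
      rw [deg_ne (show x ≠ v from fun h => k3 (by rw [h]))]
      exact hx x fun h => k3 (by rw [h])
  by_cases hbig : (B1 ∪ B2).card < (low s t m D v).card
  · obtain ⟨c, k1, k2⟩ := exists_mem_notMem_of_card_lt_card hbig
    have hac : a ≠ c := fun h => k2 (mem_union_left _ (h ▸ haB))
    have k3 := card_sdiff_add_card_eq_card (show {a, c} ⊆ low s t m D v from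
      insert_subset ha (singleton_subset_iff.2 k1))
    rw [card_pair hac] at k3
    exact key c (mem_low.1 k1).1 k2 (by omega)
  · obtain ⟨c, k1, k2⟩ := exists_mem_notMem_of_card_lt_card
      (show (B1 ∪ B2).card < (star s t v).card by rw [← dg_star hl]; omega)
    have k3 := card_lt_card (show low s t m D v \ {a, c} ⊂ low s t m D v from
      ⟨sdiff_subset, fun h => by simpa using (mem_sdiff.1 (h ha)).2⟩)
    exact key c k1 k2 (Or.inl (by omega))

lemma step (hl : ∀ e, s e ≠ t e) (h3 : ∀ v, 3 ≤ dg s t univ v) (hc : Con s t k)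
    (hg : 4 * k + 2 < g) (hD : 3 ^ g * W ≤ D) (hW : 12 * k + 4 + 3 * 4 ^ g < W)
    (h : St s t g D W) {v : V} (hv : 4 ≤ dg s t univ v) : Good s t k g D W := by
  have hD' : 12 * k + 4 < D := by
    have : W ≤ 3 ^ g * W := Nat.le_mul_of_pos_left _ (by positivity)
    omega
  rcases h with h | ⟨x, j, m, h⟩
  · by_cases h1 : ∃ x, 4 ≤ dg s t univ x ∧ dg s t univ x < D
    · obtain ⟨x, k1, k2⟩ := h1
      exact step0 hl h3 hc hg hD' k1 fun Y k3 k4 => h Y k3 fun y hy => by
        by_cases k5 : y = x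
        · rwa [k5]
        · exact k4 y hy k5
    · push Not at h1
      obtain ⟨j, rfl⟩ : ∃ j, g = j + 1 := ⟨g - 1, by omega⟩
      have k1 : (low s t 0 D v).card ≤ dg s t univ v := by
        rw [dg_star hl]
        exact card_le_card fun e he => (mem_low.1 he).1
      have k2 := h1 v hv
      exact step1 hl h3 hc hg hD' hW (v := v) j 0 ⟨by omega, fun Y k3 k4 => h Y k3 fun y hy => (k4 y hy).2,
        fun _ _ _ => Nat.zero_le _, Or.inr (by omega), fun x _ => by
          have := h1 x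
          have := h3 x
          omega⟩
  · exact step1 hl h3 hc hg hD' hW j m h

/-- an integer flow with bounds -/
def Flow (s t : E → V) (p q : ℕ) : Prop :=
  ∃ f : E → ℤ, (∀ e, (q : ℤ) ≤ |f e| ∧ |f e| ≤ p - q) ∧
    ∀ v, ∑ e ∈ univ.filter (fun e => s e = v), f e = ∑ e ∈ univ.filter (fun e => t e = v), f e

theorem expand {k g D W p q : ℕ} (hg : 4 * k + 2 < g) (hD : 3 ^ g * W ≤ D)
    (hW : 12 * k + 4 + 3 * 4 ^ g < W)
    (base : ∀ (V E : Type) [Fintype V] [DecidableEq V] [Fintype E] (s t : E → V),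
      (∀ v, dg s t univ v = 3) → (∀ Y, Cyc s t Y → g ≤ Y.card) → Con s t k → Flow s t p q)
    (n : ℕ) : ∀ (V E : Type) [Fintype V] [DecidableEq V] [Fintype E] (s t : E → V),
      2 * Fintype.card E ≤ 3 * Fintype.card V + n → (∀ e, s e ≠ t e) →
      (∀ v, 3 ≤ dg s t univ v) → Con s t k → St s t g D W → Flow s t p q := by
  have cubic : ∀ (V E : Type) [Fintype V] [DecidableEq V] [Fintype E] (s t : E → V),
      (∀ v, dg s t univ v = 3) → Con s t k → St s t g D W → Flow s t p q := by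
    intro V E _ _ _ s t h3 hc h
    have h1 : W ≤ 3 ^ g * W := Nat.le_mul_of_pos_left _ (by positivity)
    rcases h with h | ⟨x, j, m, -, -, -, h, -⟩
    · exact base V E s t h3 (fun Y hY => h Y hY fun x _ => by rw [h3]; omega) hc
    · have hj : W ≤ 3 ^ j * W := Nat.le_mul_of_pos_left _ (by positivity)
      have hj1 : 3 ^ (j + 1) * W = 3 * (3 ^ j * W) := by ring
      rw [h3] at h
      omega
  induction n with
  | zero =>
    intro V E _ _ _ s t hn hl h3 hc h
    refine cubic V E s t (fun v => ?_) hc h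
    by_contra hv
    have h1 : ∑ _x : V, 3 < ∑ x, dg s t univ x :=
      sum_lt_sum (fun x _ => h3 x) ⟨v, mem_univ _, (h3 v).lt_of_ne (Ne.symm hv)⟩
    rw [degsum] at h1
    simp at h1
    omega
  | succ n ih =>
    intro V E _ _ _ s t hn hl h3 hc h
    by_cases h1 : ∀ v, dg s t univ v = 3
    · exact cubic V E s t h1 hc h
    push Not at h1
    obtain ⟨x, hx⟩ := h1
    obtain ⟨v, a, c, k1, k2, k3, k4, k5, k6⟩ := step hl h3 hc hg hD hW h
      ((h3 x).lt_of_ne (Ne.symm hx))
    obtain ⟨f, f1, f2⟩ := ih (Option V) (Option E) _ _ (by simp only [Fintype.card_option]; omega)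
      (sp_loop hl) (fun y => by
        cases y with
        | none => exact (deg_none hl k2 k3 k4).ge
        | some y =>
          by_cases hy : y = v
          · have := deg_v hl k2 k3 k4
            rw [hy]
            omega
          · rw [deg_ne hy]
            exact h3 y) k5 k6
    exact ⟨fun e => f (some e), fun e => f1 _, sp_flow f f2⟩

lemma girth_big {k p q : ℕ} (h : 4 * k * q + 4 * p < p * k) :
    4 * k + 8 < 2 ^ (2 ^ 64 * (p * k) ^ 5) := by
  have hp : 0 < p := by
    rcases p.eq_zero_or_pos with rfl | h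
    · simp at h
    · exact h
  have hk : 4 < k := by
    by_contra h'
    have : p * k ≤ p * 4 := Nat.mul_le_mul_left _ (by omega)
    omega
  have h1 : k ≤ p * k := Nat.le_mul_of_pos_left _ hp
  have h2 : p * k ≤ (p * k) ^ 5 := Nat.le_self_pow (by norm_num) _
  refine lt_trans ?_ Nat.lt_two_pow_self
  omega

theorem general (k p q g : ℕ) (h : 4 * k * q + 4 * p < p * k)
    (hg : g = 2 ^ (2 ^ 64 * (p * k) ^ 5)) (s t : E → V) (hl : ∀ e, s e ≠ t e)
    (h3 : ∀ v, 3 ≤ dg s t univ v) (hc : Con s t k) (hs : Clean s t g (16 ^ g)) :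
    Flow s t p q := by
  have h1 : 4 * k + 8 < g := hg ▸ girth_big h
  have h2 : g < 4 ^ g := Nat.lt_pow_self (by norm_num)
  refine expand (W := 8 * 4 ^ g) (by omega) ?_ (by omega) (fun V E _ _ _ s t j1 j2 j3 =>
    final2E k p q h V E s t (Cyc s t) j1 (fun _ => Iff.rfl) (hg ▸ j2) j3) _ V E s t
    (Nat.le_add_left _ _) hl h3 hc (Or.inl hs)
  obtain ⟨r, rfl⟩ : ∃ r, g = r + 8 := ⟨g - 8, by omega⟩
  calc 3 ^ (r + 8) * (8 * 4 ^ (r + 8)) = 12 ^ r * (8 * 12 ^ 8) := by
        rw [show (12 : ℕ) = 3 * 4 from rfl, mul_pow, mul_pow]; ring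
    _ ≤ 16 ^ r * 16 ^ 8 := Nat.mul_le_mul (Nat.pow_le_pow_left (by norm_num) _) (by norm_num)
    _ = _ := (pow_add _ _ _).symm

end Pool.Agent.Lib.MP_c8786f_co.Gen
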