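import Pool.Agent.Lib.MP_c8786f_co.Gen.Main

/-!
Flows with values in the Klein group on a graph with a short cycle that meets all cycles.
-/

namespace Pool.Agent.Lib.MP_c8786f_co.Gen

open Finset W5
open scoped Classical

set_option linter.unusedSectionVars false

variable {V E : Type} [Fintype V] [DecidableEq V] [Fintype E]

/-- the Klein group -/
abbrev K4 := ZMod 2 × ZMod 2

/-- the sum over a cut -/
noncomputable def cs (s t : E → V) (f : E → K4) (X : Finset V) : K4 :=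
  ∑ e, if Cr s t X e then f e else 0

variable {s t : E → V}

lemma k4_add (a : K4) : a + a = 0 := by revert a; decide

lemma k4_pick (σ ρ : K4) : ∃ α β : K4, α ≠ 0 ∧ β ≠ 0 ∧ α + β = σ ∧ α ≠ ρ := by
  revert σ ρ; decide

lemma cs_insert (f : E → K4) {X : Finset V} {y : V} (hy : y ∉ X) :
    cs s t f (insert y X) = cs s t f X + cs s t f {y} := by
  unfold cs Cr
  rw [← sum_add_distrib]
  refine sum_congr rfl fun e _ => ?_
  by_cases h1 : s e = y <;> by_cases h2 : t e = y <;> by_cases h3 : s e ∈ X <;>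
    by_cases h4 : t e ∈ X <;> simp_all [k4_add]

lemma cs_sum (f : E → K4) (X : Finset V) : cs s t f X = ∑ v ∈ X, cs s t f {v} := by
  induction X using Finset.induction_on with
  | empty => simp [cs, Cr]
  | insert y X hy ih => rw [cs_insert f hy, sum_insert hy, ih, add_comm]

lemma cs_add (f g : E → K4) (X : Finset V) : cs s t (f + g) X = cs s t f X + cs s t g X := by
  unfold cs
  rw [← sum_add_distrib]
  exact sum_congr rfl fun e _ => by split_ifs <;> simp

lemma cs_single (e : E) (a : K4) (X : Finset V) :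
    cs s t (Pi.single e a) X = if Cr s t X e then a else 0 := by
  unfold cs
  rw [sum_eq_single e (fun b _ hb => by simp [hb]) (by simp)]
  simp

lemma acyc_card (h3 : ∀ v, 3 ≤ dg s t univ v) {Y : Finset V} (hY : Y.Nonempty) (h : ¬ Cyc s t Y) :
    Y.card + 2 ≤ cut s t Y := by
  have h1 := three_le_vol h3 Y
  have h2 : vol s t Y = _ + cut s t Y := degsum s t univ Y
  have h4 : ¬Y.card ≤ (univ.filter fun e => s e ∈ Y ∧ t e ∈ Y).card :=
    fun h' => h (fin_forest s t Y hY h')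
  omega

lemma leaf (h3 : ∀ v, 3 ≤ dg s t univ v) {Z : Finset V} (hZ : Z.Nonempty) (h : ¬ Cyc s t Z) :
    ∃ y ∈ Z, ∃ e1 e2, e1 ≠ e2 ∧ (e1 ∈ star s t y ∧ Cr s t Z e1) ∧
      e2 ∈ star s t y ∧ Cr s t Z e2 := by
  by_contra hn
  have h1 := acyc_card h3 hZ h
  have h2 := card_biUnion_le_card_mul Z (fun y => (star s t y).filter (Cr s t Z)) 1 fun y hy =>
    card_le_one.2 fun a ha b hb => by_contra fun hab =>
      hn ⟨y, hy, a, b, hab, mem_filter.1 ha, mem_filter.1 hb⟩
  have h4 : cut s t Z ≤ _ := card_le_card (show (univ.filter fun e => ¬(s e ∈ Z ↔ t e ∈ Z)) ⊆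
      Z.biUnion fun y => (star s t y).filter (Cr s t Z) from fun e he => by
    have k := (mem_filter.1 he).2
    by_cases k1 : s e ∈ Z
    · exact mem_biUnion.2 ⟨_, k1, mem_filter.2 ⟨mem_star.2 (Or.inl rfl), k⟩⟩
    · exact mem_biUnion.2 ⟨t e, by tauto, mem_filter.2 ⟨mem_star.2 (Or.inr rfl), k⟩⟩)
  omega

lemma cr_leaf {Z : Finset V} {y : V} {e : E} (hy : y ∈ Z) (h : e ∈ star s t y ∧ Cr s t Z e) :
    Cr s t {y} e ∧ (∀ z ∈ Z.erase y, ¬ Cr s t {z} e) ∧ (s e ∈ Z ∨ t e ∈ Z) ∧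
      ∀ P, y ∉ P → Cr s t P e → ¬ Cr s t (insert y P) e := by
  obtain ⟨h1, h2⟩ := h
  unfold Cr at *
  rcases mem_star.1 h1 with k | k
  · have k1 : t e ∉ Z := by rw [k] at h2; tauto
    refine ⟨?_, fun z hz => ?_, Or.inl (k ▸ hy), fun P k2 k3 => by simp_all⟩
    · have : t e ≠ y := fun j => k1 (j ▸ hy)
      simp [k, this]
    · have : t e ≠ z := fun j => k1 (j ▸ (mem_erase.1 hz).2)
      simp [k, this, (mem_erase.1 hz).1.symm]
  · have k1 : s e ∉ Z := by rw [k] at h2; tauto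
    refine ⟨?_, fun z hz => ?_, Or.inr (k ▸ hy), fun P k2 k3 => by simp_all⟩
    · have : s e ≠ y := fun j => k1 (j ▸ hy)
      simp [k, this]
    · have : s e ≠ z := fun j => k1 (j ▸ (mem_erase.1 hz).2)
      simp [k, this, (mem_erase.1 hz).1.symm]

lemma adjust {Z : Finset V} {D : Finset E} (hD : ∀ e ∈ D, s e ∉ Z ∧ t e ∉ Z) {y : V} (hy : y ∈ Z)
    {e1 e2 : E} (h12 : e1 ≠ e2) (h1 : e1 ∈ star s t y ∧ Cr s t Z e1)
    (h2 : e2 ∈ star s t y ∧ Cr s t Z e2) (f : E → K4) (hf : ∀ e, f e = 0 ↔ e ∈ D)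
    (hz : ∀ z ∈ Z.erase y, cs s t f {z} = 0) (ρ : K4) :
    ∃ (f' : E → K4) (a b : K4), (∀ e, f' e = 0 ↔ e ∈ D) ∧ (∀ z ∈ Z, cs s t f' {z} = 0) ∧
      a ≠ ρ ∧ ∀ X, cs s t f' X = cs s t f X + (if Cr s t X e1 then a else 0) +
        if Cr s t X e2 then b else 0 := by
  obtain ⟨a1, a2, a3, -⟩ := cr_leaf hy h1
  obtain ⟨b1, b2, b3, -⟩ := cr_leaf hy h2
  obtain ⟨α, β, k1, k2, k3, k4⟩ := k4_pick (cs s t f {y} + f e1 + f e2) (ρ + f e1)
  have key : ∀ X, cs s t (f + Pi.single e1 (f e1 + α) + Pi.single e2 (f e2 + β)) X =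
      cs s t f X + (if Cr s t X e1 then f e1 + α else 0) + if Cr s t X e2 then f e2 + β else 0 :=
    fun X => by rw [cs_add, cs_add, cs_single, cs_single]
  refine ⟨_, _, _, fun e => ?_, fun z hz' => ?_, fun h => k4 ?_, key⟩
  · by_cases j1 : e = e1
    · have : e1 ∉ D := fun j => by have := hD e1 j; tauto
      simp [j1, h12, ← add_assoc, k4_add, k1, this]
    · by_cases j2 : e = e2
      · have : e2 ∉ D := fun j => by have := hD e2 j; tauto
        simp [j2, h12.symm, ← add_assoc, k4_add, k2, this]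
      · simp [j1, j2, hf]
  · rw [key]
    by_cases j : z = y
    · rw [j, if_pos a1, if_pos b1, show cs s t f {y} + (f e1 + α) + (f e2 + β) =
        cs s t f {y} + f e1 + f e2 + (α + β) by abel, k3, k4_add]
    · have j' := mem_erase.2 ⟨j, hz'⟩
      rw [if_neg (a2 z j'), if_neg (b2 z j'), hz z j']
      simp
  · rw [← h, add_comm (f e1), add_assoc, k4_add, add_zero]

lemma forest_flow (h3 : ∀ v, 3 ≤ dg s t univ v) (D : Finset E) (Z : Finset V) :
    ¬ Cyc s t Z → (∀ e ∈ D, s e ∉ Z ∧ t e ∉ Z) → ∀ P, Disjoint P Z →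
    ∃ f : E → K4, (∀ e, f e = 0 ↔ e ∈ D) ∧ (∀ z ∈ Z, cs s t f {z} = 0) ∧
      ((∀ X, P ⊆ X → X ⊆ P ∪ Z → ∃ e, e ∉ D ∧ Cr s t X e) → cs s t f P ≠ 0) := by
  induction Z using Finset.strongInduction with
  | H Z ih =>
  intro hZ hD P hP
  rcases Z.eq_empty_or_nonempty with rfl | hne
  · let f : E → K4 := fun e => if e ∈ D then 0 else (1, 0)
    have hf : ∀ e, f e = 0 ↔ e ∈ D := fun e => by simp [f]
    by_cases h : cs s t f P = 0 ∧ ∃ e, e ∉ D ∧ Cr s t P e
    · obtain ⟨h1, e, h2, h4⟩ := h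
      refine ⟨f + Pi.single e (1, 1), fun e' => ?_, by simp, fun _ => ?_⟩
      · by_cases j : e' = e
        · simp only [j, Pi.add_apply, Pi.single_eq_same, f, h2, if_false, iff_false]
          decide
        · simp [j, hf]
      · rw [cs_add, cs_single, h1, if_pos h4]
        decide
    · exact ⟨f, hf, by simp, fun h1 h2 => h ⟨h2, h1 P Subset.rfl subset_union_left⟩⟩
  obtain ⟨y, hy, e1, e2, h12, h1, h2⟩ := leaf h3 hne hZ
  have hyP : y ∉ P := disjoint_right.1 hP hy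
  have ih' := ih (Z.erase y) (erase_ssubset hy) (fun h => hZ (h.mono (erase_subset _ _)))
    fun e he => ⟨fun h => (hD e he).1 (mem_of_mem_erase h),
      fun h => (hD e he).2 (mem_of_mem_erase h)⟩
  obtain ⟨f, f1, f2, f3⟩ := ih' P (hP.mono_right (erase_subset _ _))
  by_cases k1 : Cr s t P e1 <;> by_cases k2 : Cr s t P e2
  · obtain ⟨f, f1, f2, f3⟩ := ih' (insert y P)
      (disjoint_insert_left.2 ⟨notMem_erase _ _, hP.mono_right (erase_subset _ _)⟩)
    obtain ⟨f', a, b, g1, g2, -, g4⟩ := adjust hD hy h12 h1 h2 f f1 f2 0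
    refine ⟨f', g1, g2, fun h => ?_⟩
    have j := g4 (insert y P)
    rw [if_neg ((cr_leaf hy h1).2.2.2 P hyP k1), if_neg ((cr_leaf hy h2).2.2.2 P hyP k2),
      add_zero, add_zero, cs_insert f' hyP, g2 y hy, add_zero] at j
    rw [j]
    exact f3 fun X j1 j2 => h X ((subset_insert _ _).trans j1) (j2.trans (union_subset
      (insert_subset (mem_union_right _ hy) subset_union_left)
      ((erase_subset _ _).trans subset_union_right)))
  · obtain ⟨f', a, b, g1, g2, g3, g4⟩ := adjust hD hy h12 h1 h2 f f1 f2 (cs s t f P)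
    refine ⟨f', g1, g2, fun _ h => g3 ?_⟩
    rw [g4, if_pos k1, if_neg k2, add_zero] at h
    rw [← zero_add a, ← k4_add (cs s t f P), add_assoc, h, add_zero]
  · obtain ⟨f', a, b, g1, g2, g3, g4⟩ := adjust hD hy h12.symm h2 h1 f f1 f2 (cs s t f P)
    refine ⟨f', g1, g2, fun _ h => g3 ?_⟩
    rw [g4, if_pos k2, if_neg k1, add_zero] at h
    rw [← zero_add a, ← k4_add (cs s t f P), add_assoc, h, add_zero]
  · obtain ⟨f', a, b, g1, g2, -, g4⟩ := adjust hD hy h12 h1 h2 f f1 f2 0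
    refine ⟨f', g1, g2, fun h => ?_⟩
    rw [g4, if_neg k1, if_neg k2, add_zero, add_zero]
    exact f3 fun X j1 j2 => h X j1 (j2.trans (union_subset_union_right (erase_subset _ _)))

lemma fix_flow (C : Finset E) (f : E → K4) (Z : Finset V) :
    (∀ W ⊆ Z, W.Nonempty → ∃ e ∈ C, Cr s t W e) →
    ∃ g : E → K4, (∀ e, e ∉ C → g e = 0) ∧ ∀ z ∈ Z, cs s t (f + g) {z} = 0 := by
  induction Z using Finset.strongInduction with
  | H Z ih =>
  intro h
  rcases Z.eq_empty_or_nonempty with rfl | hne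
  · exact ⟨0, fun _ _ => rfl, by simp⟩
  obtain ⟨e, he, hc⟩ := h Z Subset.rfl hne
  obtain ⟨y, hy, hs⟩ : ∃ y ∈ Z, e ∈ star s t y := by
    by_cases k1 : s e ∈ Z
    · exact ⟨_, k1, mem_star.2 (Or.inl rfl)⟩
    · exact ⟨t e, by unfold Cr at hc; tauto, mem_star.2 (Or.inr rfl)⟩
  obtain ⟨a1, a2, -, -⟩ := cr_leaf hy ⟨hs, hc⟩
  obtain ⟨g, g1, g2⟩ := ih (Z.erase y) (erase_ssubset hy) fun W hW =>
    h W (hW.trans (erase_subset _ _))
  refine ⟨g + Pi.single e (cs s t (f + g) {y}), fun e' he' => ?_, fun z hz => ?_⟩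
  · have : e' ≠ e := fun j => he' (j ▸ he)
    simp [this, g1 e' he']
  · rw [← add_assoc, cs_add, cs_single]
    by_cases j : z = y
    · rw [j, if_pos a1, k4_add]
    · have j' := mem_erase.2 ⟨j, hz⟩
      rw [if_neg (a2 z j'), g2 z j', add_zero]

lemma even_cr (C : Finset E) (v : V) :
    Even (dg s t C v) ↔ Even (C.filter (Cr s t {v})).card := by
  have h := degsum s t C {v}
  rw [sum_singleton] at h
  rw [h, Nat.even_add, show C.filter (Cr s t {v}) = C.filter fun e =>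
    ¬(s e ∈ ({v} : Finset V) ↔ t e ∈ ({v} : Finset V)) from by ext e; simp [Cr]]
  simp only [even_two_mul, true_iff]

lemma orient {C : Finset E} (h : ∀ v, Even (dg s t C v)) : ∃ φ : E → ℤ,
    (∀ e, if e ∈ C then φ e = 1 ∨ φ e = -1 else φ e = 0) ∧
    ∀ v, ∑ e ∈ univ.filter (fun e => s e = v), φ e = ∑ e ∈ univ.filter (fun e => t e = v), φ e := by
  have h1 : ∀ v, ∃ b : ℤ, ∑ e ∈ univ.filter (fun e => s e = v), (ind C e : ℤ) -
      ∑ e ∈ univ.filter (fun e => t e = v), (ind C e : ℤ) = 2 * b := fun v => by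
    obtain ⟨r, hr⟩ := h v
    rw [dg, card_ind, card_ind] at hr
    have hr' := congrArg (Nat.cast : ℕ → ℤ) hr
    push_cast at hr'
    exact ⟨r - ∑ e ∈ univ.filter (fun e => t e = v), (ind C e : ℤ), by linarith⟩
  choose b hb using h1
  have h2 : ∀ X : Finset V, 2 * ∑ v ∈ X, b v =
      ∑ e, ((if s e ∈ X then (ind C e : ℤ) else 0) - if t e ∈ X then (ind C e : ℤ) else 0) :=
    fun X => by
    rw [mul_sum, ← sum_congr rfl fun v _ => hb v]
    simp only [sum_sub_distrib, sum_filter]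
    rw [sum_comm, sum_comm (s := X)]
    simp only [sum_ite_eq]
  obtain ⟨y, hy, hy'⟩ := Shared.HoffmanCirc.hoffman s t 0 (fun e => (ind C e : ℤ)) b
    (by have := h2 univ; simpa using this) (fun e => by simp) fun X => by
      have k : 2 * ∑ v ∈ X, b v ≤ 2 * ∑ e ∈ univ.filter (fun e => s e ∈ X ∧ t e ∉ X),
          (ind C e : ℤ) := by
        rw [h2, sum_filter, mul_sum]
        refine sum_le_sum fun e _ => ?_
        have : (0 : ℤ) ≤ ind C e := by positivity
        by_cases k1 : s e ∈ X <;> by_cases k2 : t e ∈ X <;> simp [k1, k2]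
        linarith
      simp only [Pi.zero_apply, sum_const_zero, sub_zero]
      linarith
  refine ⟨fun e => ind C e - 2 * y e, fun e => ?_, fun v => ?_⟩
  · have k := hy e
    simp only [Pi.zero_apply, ind] at k ⊢
    split_ifs at k ⊢ <;> push_cast at k ⊢ <;> omega
  · have k1 := hb v
    have k2 := hy' v
    simp only [sum_sub_distrib, ← mul_sum]
    linarith

lemma flow_of_k4 {p q : ℕ} (hpq : 4 * q ≤ p) (f : E → K4) (hf : ∀ e, f e ≠ 0)
    (h : ∀ v, cs s t f {v} = 0) : Flow s t p q := by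
  have z2 : ∀ x : ZMod 2, x = if x = 1 then 1 else 0 := by decide
  have key : ∀ π : K4 →+ ZMod 2, ∀ v, Even (dg s t (univ.filter fun e => π (f e) = 1) v) :=
    fun π v => by
    rw [even_cr, ← ZMod.natCast_eq_zero_iff_even, filter_filter, card_filter, Nat.cast_sum,
      ← map_zero π, ← h v, cs, map_sum]
    refine sum_congr rfl fun e _ => ?_
    by_cases k : Cr s t {v} e
    · rw [if_pos k, z2 (π (f e))]
      by_cases k' : π (f e) = 1 <;> simp [k, k']
    · simp [k]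
  obtain ⟨a, a1, a2⟩ := orient (key (AddMonoidHom.fst _ _))
  obtain ⟨b, b1, b2⟩ := orient (key (AddMonoidHom.snd _ _))
  refine ⟨fun e => q * (a e + 2 * b e), fun e => ?_, fun v => ?_⟩
  · have k : ∀ x : K4, x ≠ 0 → x.1 = 1 ∨ x.2 = 1 := by decide
    have k1 := a1 e
    have k2 := b1 e
    have k3 := k _ (hf e)
    simp only [mem_filter, mem_univ, true_and, AddMonoidHom.coe_fst, AddMonoidHom.coe_snd] at k1 k2
    have k4 : 1 ≤ |a e + 2 * b e| ∧ |a e + 2 * b e| ≤ 3 := by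
      rw [le_abs, abs_le]
      split_ifs at k1 k2
      · omega
      · omega
      · omega
      · tauto
    have k5 : (4 * q : ℤ) ≤ p := by exact_mod_cast hpq
    have k6 : (0 : ℤ) ≤ q := by positivity
    rw [abs_mul, abs_of_nonneg k6]
    constructor <;> nlinarith [k4.1, k4.2]
  · simp only [← mul_sum, sum_add_distrib]
    rw [a2, b2]

end Pool.Agent.Lib.MP_c8786f_co.Gen
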