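import Pool.Agent.Lib.MP_c8786f_co.Gen.Basic

/-!
Splitting two edges off a vertex into a new cubic vertex.
-/

namespace Pool.Agent.Lib.MP_c8786f_co.Gen

open Finset W5
open scoped Classical

set_option linter.unusedSectionVars false

variable {V E : Type} [Fintype V] [DecidableEq V] [Fintype E]

/-- the ends at `v` of two edges move to a new vertex; the new edge has the end `u` -/
noncomputable def sp (v : V) (a c : E) (r : E → V) (u : Option V) : Option E → Option V
  | none => u
  | some e => if (e = a ∨ e = c) ∧ r e = v then none else some (r e)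

variable {s t : E → V} {v : V} {a c : E}

lemma sp_getD (r : E → V) (u : Option V) (e : E) : (sp v a c r u (some e)).getD v = r e := by
  simp only [sp]
  split_ifs with h
  · exact h.2.symm
  · rfl

lemma sp_ne {A : Type} [AddCommMonoid A] (r : E → V) {u : Option V} (hu : u = none ∨ u = some v)
    (g : Option E → A) {x : V} (hx : x ≠ v) :
    ∑ e ∈ univ.filter (fun e => sp v a c r u e = some x), g e =
      ∑ e ∈ univ.filter (fun e => r e = x), g (some e) := by
  rw [sum_filter, sum_filter, Fintype.sum_option, if_neg (by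
    rcases hu with rfl | rfl <;> simp [sp, hx.symm]), zero_add]
  refine sum_congr rfl fun e _ => if_congr ?_ rfl rfl
  simp only [sp]
  split_ifs with h
  · simp [h.2, hx.symm]
  · simp

lemma sp_eq {A : Type} [AddCommMonoid A] (r : E → V) {u : Option V} (hu : u = none ∨ u = some v)
    (g : Option E → A) :
    ∑ e ∈ univ.filter (fun e => sp v a c r u e = none), g e +
      ∑ e ∈ univ.filter (fun e => sp v a c r u e = some v), g e =
      ∑ e ∈ univ.filter (fun e => r e = v), g (some e) + g none := by
  rw [sum_filter, sum_filter, sum_filter, ← sum_add_distrib, Fintype.sum_option, add_comm]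
  congr 1
  · refine sum_congr rfl fun e _ => ?_
    simp only [sp]
    by_cases h : e = a ∨ e = c <;> by_cases h1 : r e = v <;> simp [h, h1]
  · rcases hu with rfl | rfl <;> simp [sp]

/-- indicator -/
noncomputable def ind {E : Type} (C : Finset E) (e : E) : ℕ := if e ∈ C then 1 else 0

lemma card_ind {E : Type} [Fintype E] (C : Finset E) (P : E → Prop) [DecidablePred P] :
    (C.filter P).card = ∑ e ∈ univ.filter P, ind C e := by
  unfold ind
  rw [← card_filter, filter_comm]
  congr 1
  ext e
  simp

/-- the old edges of an edge set of the split graph -/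
noncomputable def old (C : Finset (Option E)) : Finset E := univ.filter fun e => some e ∈ C

lemma mem_old {C : Finset (Option E)} {e : E} : e ∈ old C ↔ some e ∈ C := by simp [old]

lemma ind_old (C : Finset (Option E)) (e : E) : ind (old C) e = ind C (some e) := by
  simp [ind, mem_old]

lemma dg_ne (C : Finset (Option E)) {x : V} (hx : x ≠ v) :
    dg (sp v a c s none) (sp v a c t (some v)) C (some x) = dg s t (old C) x := by
  unfold dg
  rw [card_ind, card_ind, card_ind (old C), card_ind (old C), sp_ne s (Or.inl rfl) _ hx,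
    sp_ne t (Or.inr rfl) _ hx]
  simp only [ind_old]

lemma dg_eq (C : Finset (Option E)) :
    dg (sp v a c s none) (sp v a c t (some v)) C none +
      dg (sp v a c s none) (sp v a c t (some v)) C (some v) =
      dg s t (old C) v + 2 * ind C none := by
  unfold dg
  rw [card_ind, card_ind, card_ind, card_ind, card_ind (old C), card_ind (old C),
    add_add_add_comm, sp_eq s (Or.inl rfl), sp_eq t (Or.inr rfl)]
  simp only [ind_old]
  ring

lemma old_univ : old (univ : Finset (Option E)) = univ := by simp [old]

lemma deg_ne {x : V} (hx : x ≠ v) :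
    dg (sp v a c s none) (sp v a c t (some v)) univ (some x) = dg s t univ x := by
  rw [dg_ne _ hx, old_univ]

lemma sp_loop (hl : ∀ e, s e ≠ t e) (e : Option E) :
    sp v a c s none e ≠ sp v a c t (some v) e := by
  cases e with
  | none => simp [sp]
  | some e => exact fun h => hl e (by rw [← sp_getD (v := v) (a := a) (c := c) s none, h, sp_getD])

lemma deg_none (hl : ∀ e, s e ≠ t e) (ha : a ∈ star s t v) (hc : c ∈ star s t v) (hac : a ≠ c) :
    dg (sp v a c s none) (sp v a c t (some v)) univ none = 3 := by
  rw [dg_star (sp_loop hl), show star (sp v a c s none) (sp v a c t (some v)) none =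
    {none, some a, some c} from ?_]
  · rw [card_insert_of_notMem (by simp), card_pair (by simpa using hac)]
  · ext e
    rw [mem_star] at ha hc ⊢
    cases e with
    | none => simp [sp]
    | some e =>
      simp only [sp, mem_insert, mem_singleton, Option.some.injEq, reduceCtorEq, false_or,
        ite_eq_left_iff, imp_false, not_not]
      constructor
      · tauto
      · rintro (rfl | rfl) <;> tauto

lemma deg_v (hl : ∀ e, s e ≠ t e) (ha : a ∈ star s t v) (hc : c ∈ star s t v) (hac : a ≠ c) :
    dg (sp v a c s none) (sp v a c t (some v)) univ (some v) + 1 = dg s t univ v := by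
  have h := dg_eq (s := s) (t := t) (v := v) (a := a) (c := c) univ
  rw [deg_none hl ha hc hac, old_univ, ind, if_pos (mem_univ _)] at h
  omega

/-- the image of a vertex set of the split graph -/
noncomputable def pr (v : V) (Y : Finset (Option V)) : Finset V := Y.image fun x => x.getD v

lemma pr_mem {Y : Finset (Option V)} {x : V} (h : x ∈ pr v Y) (hx : x ≠ v) : some x ∈ Y := by
  obtain ⟨y, hy, rfl⟩ := mem_image.1 h
  cases y with
  | none => exact absurd rfl hx
  | some y => exact hy

lemma Ev.old {C : Finset (Option E)} {Y : Finset (Option V)}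
    (h : Ev (sp v a c s none) (sp v a c t (some v)) C Y) : Ev s t (old C) (pr v Y) := by
  refine ⟨fun e he => ⟨mem_image.2 ⟨_, (h.1 _ (mem_old.1 he)).1, sp_getD _ _ _⟩,
    mem_image.2 ⟨_, (h.1 _ (mem_old.1 he)).2, sp_getD _ _ _⟩⟩, fun x => ?_⟩
  by_cases hx : x = v
  · have h1 := dg_eq (s := s) (t := t) (v := v) (a := a) (c := c) C
    obtain ⟨r, hr⟩ := (h.2 none).add (h.2 (some v))
    rw [hx, Nat.even_iff]
    omega
  · rw [← dg_ne (a := a) (c := c) C hx]
    exact h.2 _

lemma Ev.old_ne {C : Finset (Option E)} {Y : Finset (Option V)}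
    (h : Ev (sp v a c s none) (sp v a c t (some v)) C Y) (hne : C.Nonempty) :
    (Gen.old C).Nonempty := by
  by_contra hn
  have h1 : C = {none} := by
    have : ∀ e ∈ C, e = none := fun e he => by
      cases e with
      | none => rfl
      | some e => exact absurd ⟨e, mem_old.2 he⟩ hn
    obtain ⟨e, he⟩ := hne
    exact eq_singleton_iff_unique_mem.2 ⟨this e he ▸ he, this⟩
  have h2 := h.2 none
  rw [h1] at h2
  simp [dg, sp, filter_singleton] at h2

lemma Cyc.pr {Y : Finset (Option V)} (h : Cyc (sp v a c s none) (sp v a c t (some v)) Y) :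
    Cyc s t (pr v Y) := by
  obtain ⟨C, h1, h2⟩ := h
  exact ⟨_, h2.old_ne h1, h2.old⟩

lemma sp_flow (f : Option E → ℤ) (h : ∀ x, ∑ e ∈ univ.filter (fun e => sp v a c s none e = x), f e =
      ∑ e ∈ univ.filter (fun e => sp v a c t (some v) e = x), f e) (x : V) :
    ∑ e ∈ univ.filter (fun e => s e = x), f (some e) =
      ∑ e ∈ univ.filter (fun e => t e = x), f (some e) := by
  by_cases hx : x = v
  · have h1 := sp_eq (a := a) (c := c) s (Or.inl rfl : (none : Option V) = none ∨ none = some v) f
    have h2 := sp_eq (a := a) (c := c) t (Or.inr rfl : some v = none ∨ some v = some v) f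
    rw [h none, h (some v), h2] at h1
    rw [hx]
    exact (add_right_cancel h1).symm
  · rw [← sp_ne (a := a) (c := c) s (Or.inl rfl) f hx, ← sp_ne (a := a) (c := c) t (Or.inr rfl) f hx]
    exact h _

lemma sp_mem {Y : Finset (Option V)} (hv : some v ∉ Y) (r : E → V) (u : Option V) (e : E)
    (h : none ∉ Y ∨ ¬(e = a ∨ e = c)) :
    sp v a c r u (some e) ∈ Y ↔ r e ∈ univ.filter fun x => some x ∈ Y := by
  simp only [sp, mem_filter, mem_univ, true_and]
  split_ifs with h1
  · have := h1.1
    rw [h1.2]
    tauto
  · rfl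

lemma cut_out {Y : Finset (Option V)} (hv : some v ∉ Y) (hn : none ∉ Y) :
    cut s t (univ.filter fun x => some x ∈ Y) ≤ cut (sp v a c s none) (sp v a c t (some v)) Y := by
  rw [cut_sum, cut_sum, Fintype.sum_option]
  refine le_trans (le_of_eq (sum_congr rfl fun e _ => ?_)) (Nat.le_add_left _ _)
  rw [if_congr (iff_congr (sp_mem hv s none e (Or.inl hn)) (sp_mem hv t _ e (Or.inl hn))) rfl rfl]

lemma cut_in {Y : Finset (Option V)} (hv : some v ∉ Y) (hn : none ∈ Y) :
    cut s t (univ.filter fun x => some x ∈ Y) + 1 ≤ cut (sp v a c s none) (sp v a c t (some v)) Y +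
      ((if Cr s t (univ.filter fun x => some x ∈ Y) a then 1 else 0) +
        if Cr s t (univ.filter fun x => some x ∈ Y) c then 1 else 0) := by
  have h : ∀ X : Finset V, X = univ.filter (fun x => some x ∈ Y) →
      ∑ e, (if (s e ∈ X ↔ t e ∈ X) then 0 else 1) ≤
      ∑ e, ((if (sp v a c s none (some e) ∈ Y ↔ sp v a c t (some v) (some e) ∈ Y) then 0 else 1) +
        ((if e = a then (if Cr s t X a then 1 else 0) else 0) +
          if e = c then (if Cr s t X c then 1 else 0) else 0)) := fun X hX => by
    refine sum_le_sum fun e _ => ?_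
    by_cases h1 : e = a ∨ e = c
    · by_cases h2 : (s e ∈ X ↔ t e ∈ X)
      · rw [if_pos h2]; exact Nat.zero_le _
      · rw [if_neg h2]
        rcases h1 with rfl | rfl
        · rw [if_pos rfl, if_pos (show Cr s t X e from h2)]; omega
        · rw [if_pos (rfl : e = e), if_pos (show Cr s t X e from h2)]; omega
    · rw [if_congr (iff_congr (sp_mem hv s none e (Or.inr h1)) (sp_mem hv t _ e (Or.inr h1)))
        rfl rfl, ← hX]
      exact Nat.le_add_right _ _
  have h1 := h _ rfl
  rw [sum_add_distrib, sum_add_distrib, sum_ite_eq', sum_ite_eq', if_pos (mem_univ _),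
    if_pos (mem_univ _)] at h1
  rw [cut_sum, cut_sum, Fintype.sum_option, if_neg (by simp [sp, hn, hv])]
  omega

/-- short cycles that avoid `v` have a vertex of large degree -/
def PA (s t : E → V) (g D : ℕ) (v : V) : Prop :=
  ∀ Y, Cyc s t Y → (∀ x ∈ Y, x ≠ v ∧ dg s t univ x < D) → g ≤ Y.card

/-- cycles shorter than `m` have a vertex of large degree other than `v` -/
def PB (s t : E → V) (m D : ℕ) (v : V) : Prop :=
  ∀ Y, Cyc s t Y → (∀ x ∈ Y, x ≠ v → dg s t univ x < D) → m ≤ Y.card

/-- the edges at `v` on a cycle of length at most `m` without another vertex of large degree -/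
noncomputable def low (s t : E → V) (m D : ℕ) (v : V) : Finset E :=
  (star s t v).filter fun e => ∃ C Y, e ∈ C ∧ Ev s t C Y ∧
    (∀ x ∈ Y, x ≠ v → dg s t univ x < D) ∧ Y.card ≤ m

lemma mem_low {m D : ℕ} {e : E} : e ∈ low s t m D v ↔ e ∈ star s t v ∧ ∃ C Y, e ∈ C ∧ Ev s t C Y ∧
    (∀ x ∈ Y, x ≠ v → dg s t univ x < D) ∧ Y.card ≤ m := by
  unfold low
  exact mem_filter

lemma pr_deg {D : ℕ} {Y : Finset (Option V)} (h : ∀ x ∈ Y, x ≠ some v →
    dg (sp v a c s none) (sp v a c t (some v)) univ x < D) :
    ∀ x ∈ pr v Y, x ≠ v → dg s t univ x < D := fun x hx hv => by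
  rw [← deg_ne (a := a) (c := c) hv]
  exact h _ (pr_mem hx hv) (by simpa using hv)

lemma PB.sp {m D : ℕ} (h : PB s t m D v) :
    PB (sp v a c s none) (sp v a c t (some v)) m D (some v) := fun _ h1 h2 =>
  (h _ h1.pr (pr_deg h2)).trans card_image_le

lemma PA.sp {g D : ℕ} (h : ∀ C Y, C.Nonempty → Ev s t C Y →
      (∀ e ∈ C, e ∈ star s t v → e = a ∨ e = c) → (∀ x ∈ Y, x ≠ v → dg s t univ x < D) →
      g ≤ Y.card) : PA (sp v a c s none) (sp v a c t (some v)) g D (some v) := by
  rintro Y ⟨C, h1, h2⟩ h3
  refine (h _ _ (h2.old_ne h1) h2.old (fun e he hv => ?_)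
    (pr_deg fun x hx _ => (h3 x hx).2)).trans card_image_le
  by_contra hn
  have k := h2.1 _ (mem_old.1 he)
  simp only [Gen.sp, hn, false_and, if_false] at k
  rcases mem_star.1 hv with h4 | h4
  · exact (h3 _ k.1).1 (by rw [h4])
  · exact (h3 _ k.2).1 (by rw [h4])

lemma low_sp {m D : ℕ} (h : PB s t m D v) :
    (low (sp v a c s none) (sp v a c t (some v)) m D (some v)).card ≤
      (low s t m D v \ {a, c}).card := by
  refine le_trans (card_le_card ?_) (card_image_le (f := some))
  intro e he
  obtain ⟨h1, C, Y, h2, h3, h4, h5⟩ := mem_low.1 he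
  cases e with
  | none =>
    have k1 := h _ ⟨_, h3.old_ne ⟨_, h2⟩, h3.old⟩ (pr_deg h4)
    have k2 := h3.1 _ h2
    have k3 : pr v Y ⊆ pr v (Y.erase none) := fun x hx => by
      by_cases hv : x = v
      · exact mem_image.2 ⟨some v, mem_erase.2 ⟨by simp, k2.2⟩, hv.symm⟩
      · exact mem_image.2 ⟨some x, mem_erase.2 ⟨by simp, pr_mem hx hv⟩, rfl⟩
    have k4 := (card_le_card k3).trans card_image_le
    have k5 := card_erase_lt_of_mem (a := none) k2.1
    omega
  | some e =>
    have k1 : e ∈ star s t v := by
      rw [mem_star] at h1 ⊢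
      exact h1.imp (fun k => by rw [← sp_getD (v := v) (a := a) (c := c) s none, k]; rfl)
        fun k => by rw [← sp_getD (v := v) (a := a) (c := c) t (some v), k]; rfl
    refine mem_image.2 ⟨e, mem_sdiff.2 ⟨mem_low.2 ⟨k1, _, _, mem_old.2 h2, h3.old,
      pr_deg h4, card_image_le.trans h5⟩, fun k => ?_⟩, rfl⟩
    rw [mem_insert, mem_singleton] at k
    rw [mem_star] at h1
    simp only [Gen.sp, k, true_and] at h1
    rcases h1 with h1 | h1 <;> split_ifs at h1 <;> simp_all

lemma con_sp {k g D : ℕ} (h3 : ∀ v, 3 ≤ dg s t univ v) (hc : Con s t k)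
    (hT : ∀ X, Tight s t k v X → Cr s t X a → ¬ Cr s t X c)
    (hA : PA (sp v a c s none) (sp v a c t (some v)) g D (some v))
    (hn : dg (sp v a c s none) (sp v a c t (some v)) univ none = 3)
    (hg : k + 1 < g) (hD : 3 * k + 3 < D) : Con (sp v a c s none) (sp v a c t (some v)) k := by
  have key : ∀ Y, some v ∉ Y → Cyc (sp v a c s none) (sp v a c t (some v)) Y →
      Cyc (sp v a c s none) (sp v a c t (some v)) Yᶜ →
      k ≤ cut (sp v a c s none) (sp v a c t (some v)) Y := by
    intro Y hv h1 h2
    have hvX : v ∉ univ.filter fun x => some x ∈ Y := by simp [hv]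
    have k2 : Cyc s t (univ.filter fun x => some x ∈ Y)ᶜ := h2.pr.mono fun x hx => by
      by_cases h : x = v
      · rw [h]; exact mem_compl.2 hvX
      · simpa using pr_mem hx h
    by_cases hY : none ∈ Y
    · have k3 := cut_in (s := s) (t := t) (a := a) (c := c) hv hY
      by_cases k1 : Cyc s t (univ.filter fun x => some x ∈ Y)
      · have k4 := hc _ k1 k2
        have k5 := fun h => hT _ ⟨hvX, k1, k2, h⟩
        split_ifs at k3 with j1 j2 j2
        · have := mt k5 fun h => h j1 j2
          omega
        all_goals omega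
      · have k4 := vol_le h3 k1
        have k5 : k + 1 ≤ cut s t (univ.filter fun x => some x ∈ Y) := by
          by_cases j : ∀ x ∈ univ.filter (fun x => some x ∈ Y), dg s t univ x < D
          · have j1 := hA Y h1 fun x hx => ⟨fun h => hv (h ▸ hx), by
              cases x with
              | none => omega
              | some x =>
                rw [deg_ne (show x ≠ v from fun h => hv (h ▸ hx))]
                exact j x (by simpa using hx)⟩
            have j2 : Y ⊆ insert none ((univ.filter fun x => some x ∈ Y).image some) :=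
              fun x hx => by cases x <;> simp [hx]
            have j3 := (card_le_card j2).trans ((card_insert_le _ _).trans
              (Nat.succ_le_succ card_image_le))
            have j4 := three_le_vol h3 (univ.filter fun x => some x ∈ Y)
            omega
          · push Not at j
            obtain ⟨x, j1, j2⟩ := j
            have j3 : dg s t univ x ≤ vol s t (univ.filter fun x => some x ∈ Y) :=
              single_le_sum (f := fun x => dg s t univ x) (fun _ _ => Nat.zero_le _) j1
            omega
        split_ifs at k3 <;> omega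
    · refine (hc _ (h1.pr.mono fun x hx => ?_) k2).trans (cut_out hv hY)
      obtain ⟨y, hy, rfl⟩ := mem_image.1 hx
      cases y with
      | none => exact absurd hy hY
      | some y => simpa using hy
  intro Y h1 h2
  by_cases hv : some v ∈ Y
  · rw [← cut_compl]
    exact key _ (by simpa using hv) h2 (by rwa [compl_compl])
  · exact key Y hv h1 h2

end Pool.Agent.Lib.MP_c8786f_co.Gen
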